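import Pool.Agent.Helper82.JE.FxLh

/-!
The size of `fx` under the bound `ζ(s) = O(t^ε)` to the right of a line.
-/

set_option autoImplicit false
set_option maxHeartbeats 1000000

open Complex Filter Topology Metric Set

namespace Pool.Agent.Helper82.JE

open Pool.Agent.Helper75.Jen Pool.Agent.Helper75.HD

/-- to the right of a line on which the zeta function is small -/
lemma line_gr {σ : ℝ} (hσ : 0 ≤ σ) (hG : ∀ ε > 0, ∃ C : ℝ, ∀ s : ℂ, 1 / 2 + σ ≤ s.re → 1 ≤ s.im →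
    ‖riemannZeta s‖ ≤ C * s.im ^ (ε : ℝ)) {ε R : ℝ} (hε : 0 < ε) (hR : 1 ≤ R) :
    ∃ τ0 : ℝ, 30 * R ≤ τ0 ∧ ∀ τ : ℝ, τ0 ≤ τ → ∀ w : ℂ, σ ≤ w.re → w.re ≤ R → |w.im - τ| ≤ R →
      ‖fx w‖ ≤ Mf τ * Real.exp (Real.log τ / 2 * w.re + ε * (Real.log τ / 2)) := by
  obtain ⟨C1, hC1, hLB⟩ := logDeriv_Gx
  have hC : LB C1 := ⟨hC1, hLB⟩
  obtain ⟨K, hK1, hK⟩ := size_right (δ := 1) (R := R) one_pos le_rfl hR
  obtain ⟨C0, hC0, hz⟩ := zeta_right' (η := 1 / 4) (by norm_num)
  obtain ⟨C, hCb⟩ := hG (ε / 8) (by positivity)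
  set C' : ℝ := max C 1 with hC'
  have hC'1 : 1 ≤ C' := le_max_right _ _
  -- the constant
  set A : ℝ := C0 * Real.exp (K * (6 * R)) * Real.exp ((C1 + 1) * R) * (C' * 2 ^ (ε / 8)) with hA
  have hA0 : 0 < A := by positivity
  refine ⟨max (30 * R) (Real.exp (8 * |Real.log A| / ε)), le_max_left _ _, ?_⟩
  intro τ hτ w hw0 hwR hwi
  have hτ1 : 30 * R ≤ τ := (le_max_left _ _).trans hτ
  have hτ2 : Real.exp (8 * |Real.log A| / ε) ≤ τ := (le_max_right _ _).trans hτ
  have hτ0 : 0 < τ := by linarith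
  obtain ⟨i1, i2⟩ := abs_le.1 hwi
  set y : ℝ := w.im with hy
  have hy0 : 0 < y := by linarith
  set w1 : ℂ := 1 + y * I with hw1
  have hw1re : w1.re = 1 := by simp [hw1]
  have hw1im : w1.im = y := by simp [hw1]
  -- the value at 1 + iy
  obtain ⟨-, -, hsz⟩ := hK τ hτ1 w1 (by rw [hw1re]; norm_num) (by rw [hw1re]; linarith)
    (by rw [hw1im]; linarith)
  rw [hw1re, sub_self, mul_zero, sub_zero] at hsz
  have hap : ∀ x : ℝ, 0 < ‖fx (1 + x * I)‖ := by
    intro x
    refine norm_pos_iff.2 fun h => ?_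
    have h1 := fx_zero_re h
    have h2 : (1 + (x : ℂ) * I).re = 1 := by simp
    rw [h2] at h1
    norm_num at h1
  have hsz2 : ‖fx w1‖ ≤ ‖fx (1 + τ * I)‖ * Real.exp (K * (6 * R)) := by
    have h1 := (abs_le.1 hsz).2
    have h2 : Real.log ‖fx w1‖ ≤ Real.log (‖fx (1 + τ * I)‖ * Real.exp (K * (6 * R))) := by
      rw [Real.log_mul (hap τ).ne' (Real.exp_pos _).ne', Real.log_exp]
      linarith
    exact (Real.log_le_log_iff (hap y) (mul_pos (hap τ) (Real.exp_pos _))).1 h2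
  -- Gx at 1 + iy
  have hfw1 : fx w1 = Gx w1 * riemannZeta (1 / 2 + w1) := by
    apply fx_eq
    · rw [hw1re]; norm_num
    · intro h
      have := congrArg Complex.re h
      rw [hw1re] at this
      norm_num at this
  obtain ⟨-, -, -, hzl⟩ := hz (1 / 2 + w1) (by
    simp only [add_re, hw1re]
    norm_num)
  have hG1 : ‖Gx w1‖ ≤ C0 * ‖fx w1‖ := by
    rw [hfw1, norm_mul]
    have h0 := norm_nonneg (Gx w1)
    calc ‖Gx w1‖ = ‖Gx w1‖ * 1 := (mul_one _).symm
      _ ≤ ‖Gx w1‖ * (C0 * ‖riemannZeta (1 / 2 + w1)‖) := by gcongr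
      _ = _ := by ring
  -- horizontally
  have hwabs : |w.re| ≤ R := by rw [abs_of_nonneg (hσ.trans hw0)]; exact hwR
  have hG2 := Gx_hor hC (w := w1) (w' := w) (X := R) (by rw [hw1im]; linarith) (by rw [hw1im])
    (by rw [hw1im]; linarith) (by rw [hw1re, abs_one]; exact hR) hwabs
  rw [hw1re, hw1im] at hG2
  have e1 : |w.re - 1| ≤ R := by rw [abs_le]; constructor <;> linarith
  have hfw : fx w = Gx w * riemannZeta (1 / 2 + w) := by
    apply fx_eq
    · linarith
    · intro h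
      have := congrArg Complex.im h
      rw [← hy] at this
      norm_num at this
      linarith
  have hzy : ‖riemannZeta (1 / 2 + w)‖ ≤ C' * y ^ (ε / 8 : ℝ) := by
    have h1 := hCb (1 / 2 + w) (by simp; linarith) (by simp; linarith)
    have h2 : (1 / 2 + w).im = y := by simp [hy]
    rw [h2] at h1
    refine h1.trans ?_
    gcongr
    exact le_max_left _ _
  have hy2 : y ≤ 2 * τ := by linarith
  have hyp : y ^ (ε / 8 : ℝ) ≤ 2 ^ (ε / 8) * τ ^ (ε / 8) := by
    rw [← Real.mul_rpow (by norm_num) hτ0.le]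
    exact Real.rpow_le_rpow hy0.le hy2 (by positivity)
  have hl2 : Real.log 2 ≤ 1 := by
    have := Real.log_two_lt_d9
    linarith
  have hlogy : |Real.log y - Real.log τ| ≤ 1 := by
    rw [abs_le]
    constructor
    · have h1 : τ / 2 ≤ y := by linarith
      have h2 : Real.log (τ / 2) ≤ Real.log y := Real.log_le_log (by positivity) h1
      rw [Real.log_div hτ0.ne' (by norm_num)] at h2
      linarith
    · have h2 : Real.log y ≤ Real.log (2 * τ) := Real.log_le_log hy0 hy2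
      rw [Real.log_mul (by norm_num) hτ0.ne'] at h2
      linarith
  have hτp : τ ^ (ε / 8 : ℝ) = Real.exp (ε / 8 * Real.log τ) := by
    rw [Real.rpow_def_of_pos hτ0, mul_comm]
  have hlogA : Real.log A ≤ ε / 8 * Real.log τ := by
    have h1 : 8 * |Real.log A| / ε ≤ Real.log τ := by
      rw [Real.le_log_iff_exp_le hτ0]; exact hτ2
    rw [div_le_iff₀ hε] at h1
    have := le_abs_self (Real.log A)
    linarith
  have hAexp : A ≤ Real.exp (ε / 8 * Real.log τ) := by
    rw [← Real.log_le_iff_le_exp hA0]; exact hlogA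
  have hτpos : 0 ≤ Real.log τ := Real.log_nonneg (by linarith)
  have hexp : Real.exp (1 / 2 * Real.log y * (w.re - 1) + C1 * |w.re - 1|) ≤
      Real.exp (Real.log τ / 2 * (w.re - 1) + (C1 + 1) * R) := by
    refine Real.exp_le_exp.2 ?_
    have h1 : (Real.log y - Real.log τ) * (w.re - 1) ≤ 1 * R := by
      refine (le_abs_self _).trans ?_
      rw [abs_mul]
      exact mul_le_mul hlogy e1 (abs_nonneg _) (by norm_num)
    have h2 : C1 * |w.re - 1| ≤ C1 * R := by gcongr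
    nlinarith
  have hG3 : ‖Gx w1‖ ≤ C0 * (‖fx (1 + τ * I)‖ * Real.exp (K * (6 * R))) :=
    hG1.trans (by gcongr)
  calc ‖fx w‖ = ‖Gx w‖ * ‖riemannZeta (1 / 2 + w)‖ := by rw [hfw, norm_mul]
    _ ≤ (‖Gx w1‖ * Real.exp (1 / 2 * Real.log y * (w.re - 1) + C1 * |w.re - 1|)) *
          (C' * y ^ (ε / 8 : ℝ)) := by
        gcongr
    _ ≤ ((C0 * (‖fx (1 + τ * I)‖ * Real.exp (K * (6 * R)))) *
          Real.exp (Real.log τ / 2 * (w.re - 1) + (C1 + 1) * R)) *
          (C' * (2 ^ (ε / 8) * τ ^ (ε / 8))) := by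
        gcongr
    _ = Mf τ * (Real.exp (Real.log τ / 2 * w.re) * (A * Real.exp (ε / 8 * Real.log τ))) := by
        have e3 : Real.log τ / 2 * (w.re - 1) + (C1 + 1) * R =
            -(Real.log τ / 2) + (Real.log τ / 2 * w.re + (C1 + 1) * R) := by ring
        rw [hτp, e3, Real.exp_add, Real.exp_add, hA]
        unfold Mf
        ring
    _ ≤ Mf τ * (Real.exp (Real.log τ / 2 * w.re) *
          (Real.exp (ε / 8 * Real.log τ) * Real.exp (ε / 8 * Real.log τ))) := by
        have := (Mf_pos τ).le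
        gcongr
    _ ≤ Mf τ * Real.exp (Real.log τ / 2 * w.re + ε * (Real.log τ / 2)) := by
        rw [← Real.exp_add, ← Real.exp_add]
        have := (Mf_pos τ).le
        gcongr
        nlinarith

/-- P3' -/
theorem fx_gr {θ : ℝ} (hθ : 1 / 2 ≤ θ) (hG : ∀ σ > θ, ∀ ε > 0, ∃ C : ℝ, ∀ s : ℂ, σ ≤ s.re →
    1 ≤ s.im → ‖riemannZeta s‖ ≤ C * s.im ^ (ε : ℝ)) {ε R : ℝ} (hε : 0 < ε) (hR : 1 ≤ R) :
    ∃ τ0 : ℝ, 2 ≤ τ0 ∧ ∀ τ : ℝ, τ0 ≤ τ → ∀ w : ℂ, |w.re| ≤ R → |w.im - τ| ≤ R →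
      ‖fx w‖ ≤ Pool.Agent.Helper75.JE.Mf τ *
        Real.exp (Real.log τ / 2 * max |w.re| (θ - 1 / 2) + ε * (Real.log τ / 2)) := by
  obtain ⟨Cg, τg, hCg, hτg, hgr⟩ := growth
  set r : ℝ := θ - 1 / 2 + ε / 4 with hr
  have hr0 : 0 < r := by linarith
  set H : ℝ := 64 * Cg * (r ^ 2 + 1) / ε + R + r + 3 with hH
  have hHR : R + r + 3 ≤ H := by
    have : 0 ≤ 64 * Cg * (r ^ 2 + 1) / ε := by positivity
    linarith
  have hH1 : 1 ≤ H := by linarith
  set R' : ℝ := H + R + r with hR'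
  have hR'1 : 1 ≤ R' := by linarith
  obtain ⟨τ1, hτ1, h1⟩ := line_gr (σ := r) hr0.le (fun e he => by
    obtain ⟨C, hC⟩ := hG (1 / 2 + r) (by rw [hr]; linarith) e he
    exact ⟨C, hC⟩) (ε := ε / 4) (R := R') (by positivity) hR'1
  refine ⟨max τ1 τg, hτg.trans (le_max_right _ _), ?_⟩
  intro τ hτ
  simp only [max_le_iff] at hτ
  obtain ⟨a1, a2⟩ := hτ
  have hτR : 30 * R' ≤ τ := hτ1.trans a1
  have hτ0 : 0 < τ := by linarith
  set L : ℝ := Real.log τ / 2 with hL
  have hlogτ : 0 ≤ Real.log τ := Real.log_nonneg (show 1 ≤ τ by linarith)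
  have hL0 : 0 ≤ L := by positivity
  have hM0 : 0 < Mf τ := Mf_pos τ
  -- outside of the strip
  have hout : ∀ w : ℂ, r ≤ |w.re| → |w.re| ≤ R' → |w.im - τ| ≤ R' →
      ‖fx w‖ ≤ Mf τ * Real.exp (L * |w.re| + ε / 4 * L) := by
    intro w b1 b2 b3
    rcases le_total 0 w.re with h | h
    · rw [abs_of_nonneg h] at b1 b2 ⊢
      exact h1 τ a1 w b1 b2 b3
    · rw [abs_of_nonpos h] at b1 b2 ⊢
      have h4 : (-(starRingEnd ℂ w)).re = -w.re := by simp
      have h5 : (-(starRingEnd ℂ w)).im = w.im := by simp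
      have h3 := h1 τ a1 (-(starRingEnd ℂ w)) (by rw [h4]; exact b1) (by rw [h4]; exact b2)
        (by rw [h5]; exact b3)
      rw [fx_even, fx_conj, RCLike.norm_conj, h4] at h3
      exact h3
  intro w c1 c3
  have hgoal : ‖fx w‖ ≤ Mf τ * Real.exp (L * max |w.re| (θ - 1 / 2) + ε * L) := by
    rcases le_or_gt r |w.re| with hw | hw
    · refine (hout w hw (by linarith) (by linarith)).trans ?_
      have h2 : |w.re| ≤ max |w.re| (θ - 1 / 2) := le_max_left _ _
      gcongr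
      linarith
    -- the strip
    set t : ℝ := w.im with ht
    obtain ⟨t1, t2⟩ := abs_le.1 c3
    set V : ℝ := Mf τ * Real.exp (L * r + ε / 4 * L) with hV
    have hV0 : 0 ≤ V := by positivity
    set Kt : ℝ := Cg * Real.log τ * (2 * H) with hKt
    have hKt0 : 0 ≤ Kt := by positivity
    have hside : ∀ u : ℂ, |u.re| = r → |u.im - t| ≤ H → ‖fx u‖ ≤ V := by
      intro u d1 d2
      obtain ⟨s1, s2⟩ := abs_le.1 d2
      have hclose : |u.im - τ| ≤ R' := by rw [abs_le]; constructor <;> linarith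
      have h3 := hout u d1.ge (by rw [d1]; linarith) hclose
      rw [d1] at h3
      exact h3
    have htop : ∀ u : ℂ, |u.re| ≤ r → |u.im - t| = H → ‖fx u‖ ≤ V * Real.exp Kt := by
      intro u d1 d2
      obtain ⟨s1, s2⟩ := abs_le.1 d2.le
      obtain ⟨s3, s4⟩ := abs_le.1 d1
      have hd : ‖u - τ * I‖ ≤ H + R + r := by
        refine (Complex.norm_le_abs_re_add_abs_im _).trans ?_
        have e1 : (u - τ * I).re = u.re := by simp
        have e2 : (u - τ * I).im = u.im - τ := by simp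
        rw [e1, e2]
        have h4 : |u.im - τ| ≤ H + R := by rw [abs_le]; constructor <;> linarith
        linarith
      have hn : ‖u‖ ≤ 2 * τ := by
        have h3 : ‖u‖ ≤ ‖u - τ * I‖ + ‖(τ : ℂ) * I‖ := by
          simpa using norm_add_le (u - τ * I) (τ * I)
        have h4 : ‖(τ : ℂ) * I‖ = τ := by
          rw [norm_mul, Complex.norm_I, mul_one, Complex.norm_real, Real.norm_of_nonneg hτ0.le]
        linarith
      have h3 := hgr τ a2 _ hn
      calc ‖fx u‖
          ≤ Mf τ * Real.exp (Cg * Real.log τ * (1 + ‖u - τ * I‖)) := h3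
        _ ≤ V * Real.exp Kt := by
            rw [hV, hKt]
            have h6 : Mf τ ≤ Mf τ * Real.exp (L * r + ε / 4 * L) := by
              have : 1 ≤ Real.exp (L * r + ε / 4 * L) := Real.one_le_exp (by positivity)
              nlinarith
            gcongr
            linarith
    have hmain := gauss_strip' fx_diff (r := r) (H := H) (t := t) (V := V) (K := Kt) hr0
      hH1 hV0 hKt0 hside htop w hw.le (by rw [← ht]; simp)
    have hKH : Kt / H ^ 2 * (r ^ 2 + 1) ≤ ε / 4 * L := by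
      have h3 : Kt / H ^ 2 * (r ^ 2 + 1) = 4 * (Cg * (r ^ 2 + 1)) * L / H := by
        rw [hKt, hL]
        field_simp
        ring
      rw [h3]
      have h4 : 64 * Cg * (r ^ 2 + 1) / ε ≤ H := by linarith
      rw [div_le_iff₀ hε] at h4
      rw [div_le_iff₀ (by linarith)]
      have h5 := mul_le_mul_of_nonneg_right h4 hL0
      have h6 : 0 ≤ H * ε * L := by positivity
      have h7 : 4 * (Cg * (r ^ 2 + 1)) * L = 1 / 16 * (64 * Cg * (r ^ 2 + 1) * L) := by ring
      have h8 : ε / 4 * L * H = 1 / 4 * (H * ε * L) := by ring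
      rw [h7, h8]
      linarith
    have hmax : θ - 1 / 2 ≤ max |w.re| (θ - 1 / 2) := le_max_right _ _
    calc ‖fx w‖ ≤ V * Real.exp (Kt / H ^ 2 * (r ^ 2 + 1)) := hmain
      _ ≤ V * Real.exp (ε / 4 * L) := by gcongr
      _ = Mf τ * Real.exp (L * r + ε / 4 * L + ε / 4 * L) := by
          rw [hV, mul_assoc, ← Real.exp_add]
      _ ≤ Mf τ * Real.exp (L * max |w.re| (θ - 1 / 2) + ε * L) := by
          refine mul_le_mul_of_nonneg_left (Real.exp_le_exp.2 ?_) hM0.le
          have h7 : L * (θ - 1 / 2) ≤ L * max |w.re| (θ - 1 / 2) := by gcongr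
          rw [hr]
          nlinarith
  exact hgoal

end Pool.Agent.Helper82.JE
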