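import Pool.Agent.Helper82.JE.Gro
import Pool.Agent.Helper75.HD.Gc

/-!
The size of `fx` under the bound `ζ(1/2 + it) = O(t^ε)`.
-/

set_option autoImplicit false
set_option maxHeartbeats 1000000

open Complex Filter Topology Metric Set

namespace Pool.Agent.Helper82.JE

open Pool.Agent.Helper75.Jen Pool.Agent.Helper75.HD

/-- the maximum principle in a rectangle, with a Gaussian factor -/
lemma gauss_strip' {F : ℂ → ℂ} (hF : Differentiable ℂ F) {r H t V K : ℝ} (hr : 0 < r) (hH : 1 ≤ H)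
    (hV : 0 ≤ V) (hK : 0 ≤ K)
    (hside : ∀ w : ℂ, |w.re| = r → |w.im - t| ≤ H → ‖F w‖ ≤ V)
    (htop : ∀ w : ℂ, |w.re| ≤ r → |w.im - t| = H → ‖F w‖ ≤ V * Real.exp K) :
    ∀ w : ℂ, |w.re| ≤ r → |w.im - t| ≤ 1 → ‖F w‖ ≤ V * Real.exp (K / H ^ 2 * (r ^ 2 + 1)) := by
  intro w hw1 hw2
  set lam : ℝ := K / H ^ 2 with hlam
  have hlam0 : 0 ≤ lam := by positivity
  set f : ℂ → ℂ := fun z => F z * cexp (lam * (z - t * I) ^ 2) with hf
  have hfd : Differentiable ℂ f := hF.mul (by fun_prop)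
  have hfn : ∀ z : ℂ, ‖f z‖ = ‖F z‖ * Real.exp (lam * (z.re ^ 2 - (z.im - t) ^ 2)) := by
    intro z
    rw [hf]
    simp only
    rw [norm_mul, Complex.norm_exp]
    congr 2
    simp [pow_two]
  set U : Set ℂ := Ioo (-r) r ×ℂ Ioo (t - H) (t + H) with hU
  have hUb : Bornology.IsBounded U :=
    (Metric.isBounded_Ioo (-r) r).reProdIm (Metric.isBounded_Ioo (t - H) (t + H))
  have hfr : ∀ z ∈ frontier U, ‖f z‖ ≤ V * Real.exp (lam * r ^ 2) := by
    intro z hz
    rw [hU, Complex.frontier_reProdIm, closure_Ioo (by linarith), closure_Ioo (by linarith),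
      frontier_Ioo (by linarith), frontier_Ioo (by linarith)] at hz
    rw [hfn]
    rcases hz with hz | hz
    · rw [Complex.mem_reProdIm] at hz
      obtain ⟨h1, h2⟩ := hz
      have h3 : |z.re| ≤ r := abs_le.2 h1
      have h4 : |z.im - t| = H := by
        rcases h2 with h2 | h2
        · rw [h2]; simp; linarith
        · rw [mem_singleton_iff] at h2; rw [h2]; simp; linarith
      have h5 := htop z h3 h4
      have h6 : z.re ^ 2 ≤ r ^ 2 := by rw [← sq_abs]; gcongr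
      have h7 : (z.im - t) ^ 2 = H ^ 2 := by rw [← sq_abs, h4]
      calc ‖F z‖ * Real.exp (lam * (z.re ^ 2 - (z.im - t) ^ 2))
          ≤ V * Real.exp K * Real.exp (lam * (r ^ 2 - H ^ 2)) := by rw [h7]; gcongr
        _ = V * Real.exp (lam * r ^ 2) := by
            rw [mul_assoc, ← Real.exp_add]
            congr 2
            rw [hlam]
            field_simp
            ring
    · rw [Complex.mem_reProdIm] at hz
      obtain ⟨h1, h2⟩ := hz
      have h3 : |z.re| = r := by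
        rcases h1 with h1 | h1
        · rw [h1, abs_neg, abs_of_pos hr]
        · rw [mem_singleton_iff] at h1; rw [h1, abs_of_pos hr]
      have h4 : |z.im - t| ≤ H := by
        rw [abs_le]
        constructor <;> linarith [h2.1, h2.2]
      have h5 := hside z h3 h4
      have h6 : z.re ^ 2 = r ^ 2 := by rw [← sq_abs, h3]
      have h7 : lam * (z.re ^ 2 - (z.im - t) ^ 2) ≤ lam * r ^ 2 := by
        rw [h6]
        gcongr
        linarith [sq_nonneg (z.im - t)]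
      gcongr
  have hcl : w ∈ closure U := by
    rw [hU, Complex.closure_reProdIm, closure_Ioo (by linarith), closure_Ioo (by linarith),
      Complex.mem_reProdIm]
    rw [abs_le] at hw2
    exact ⟨abs_le.1 hw1, by constructor <;> linarith [hw2.1, hw2.2]⟩
  have h := Complex.norm_le_of_forall_mem_frontier_norm_le hUb hfd.diffContOnCl hfr hcl
  rw [hfn] at h
  have h2 : 0 ≤ w.re ^ 2 := sq_nonneg _
  have h3 : (w.im - t) ^ 2 ≤ 1 := by rw [← sq_abs]; nlinarith [abs_nonneg (w.im - t)]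
  calc ‖F w‖ = ‖F w‖ * Real.exp (lam * (w.re ^ 2 - (w.im - t) ^ 2)) *
        Real.exp (-(lam * (w.re ^ 2 - (w.im - t) ^ 2))) := by
        rw [mul_assoc, ← Real.exp_add]; simp
    _ ≤ V * Real.exp (lam * r ^ 2) * Real.exp (-(lam * (w.re ^ 2 - (w.im - t) ^ 2))) := by gcongr
    _ = V * Real.exp (lam * r ^ 2 - lam * (w.re ^ 2 - (w.im - t) ^ 2)) := by
        rw [mul_assoc, ← Real.exp_add]; rfl
    _ ≤ _ := by
        refine mul_le_mul_of_nonneg_left (Real.exp_le_exp.2 ?_) hV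
        nlinarith

/-- the critical line -/
lemma crit_line (hLH : ∀ ε > 0, ∃ C : ℝ, ∀ t : ℝ, 1 ≤ t →
    ‖riemannZeta (1 / 2 + t * I)‖ ≤ C * t ^ (ε : ℝ)) {ε R : ℝ} (hε : 0 < ε) (hR : 1 ≤ R) :
    ∃ τ0 : ℝ, 30 * R ≤ τ0 ∧ ∀ τ : ℝ, τ0 ≤ τ → ∀ w : ℂ, w.re = 0 → |w.im - τ| ≤ R →
      ‖fx w‖ ≤ Mf τ * Real.exp (ε * (Real.log τ / 2)) := by
  obtain ⟨C1, hC1, hLB⟩ := logDeriv_Gx
  have hC : LB C1 := ⟨hC1, hLB⟩
  obtain ⟨K, hK1, hK⟩ := size_right (δ := 1) (R := R) one_pos le_rfl hR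
  obtain ⟨C0, hC0, hz⟩ := zeta_right' (η := 1 / 4) (by norm_num)
  obtain ⟨C, hCb⟩ := hLH (ε / 8) (by positivity)
  set C' : ℝ := max C 1 with hC'
  have hC'1 : 1 ≤ C' := le_max_right _ _
  -- the constant
  set A : ℝ := C0 * Real.exp (K * (6 * R)) * Real.exp (C1 + 1) * (C' * 2 ^ (ε / 8)) with hA
  have hA0 : 0 < A := by positivity
  refine ⟨max (30 * R) (Real.exp (8 * |Real.log A| / ε)), le_max_left _ _, ?_⟩
  intro τ hτ w hw0 hwi
  have hτ1 : 30 * R ≤ τ := (le_max_left _ _).trans hτ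
  have hτ2 : Real.exp (8 * |Real.log A| / ε) ≤ τ := (le_max_right _ _).trans hτ
  have hτ0 : 0 < τ := by linarith
  obtain ⟨i1, i2⟩ := abs_le.1 hwi
  set y : ℝ := w.im with hy
  have hy0 : 0 < y := by linarith
  have hweq : w = y * I := by
    apply Complex.ext
    · simp [hw0]
    · simp [hy]
  set w1 : ℂ := 1 + y * I with hw1
  have hw1re : w1.re = 1 := by simp [hw1]
  have hw1im : w1.im = y := by simp [hw1]
  -- the value at 1 + iy
  obtain ⟨-, -, hsz⟩ := hK τ hτ1 w1 (by rw [hw1re]; norm_num) (by rw [hw1re]; linarith)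
    (by rw [hw1im]; linarith)
  rw [hw1re, sub_self, mul_zero, sub_zero] at hsz
  have hap : ∀ x : ℝ, 0 < ‖fx (1 + x * I)‖ := by
    intro x
    refine norm_pos_iff.2 fun h => ?_
    have h1 := fx_zero_re h
    have h2 : (1 + (x : ℂ) * I).re = 1 := by simp
    rw [h2] at h1
    norm_num at h1
  have hsz2 : ‖fx w1‖ ≤ ‖fx (1 + τ * I)‖ * Real.exp (K * (6 * R)) := by
    have h1 := (abs_le.1 hsz).2
    have h2 : Real.log ‖fx w1‖ ≤ Real.log (‖fx (1 + τ * I)‖ * Real.exp (K * (6 * R))) := by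
      rw [Real.log_mul (hap τ).ne' (Real.exp_pos _).ne', Real.log_exp]
      linarith
    exact (Real.log_le_log_iff (hap y) (mul_pos (hap τ) (Real.exp_pos _))).1 h2
  -- Gx at 1 + iy
  have hfw1 : fx w1 = Gx w1 * riemannZeta (1 / 2 + w1) := by
    apply fx_eq
    · rw [hw1re]; norm_num
    · intro h
      have := congrArg Complex.re h
      rw [hw1re] at this
      norm_num at this
  obtain ⟨-, -, -, hzl⟩ := hz (1 / 2 + w1) (by
    simp only [add_re, hw1re]
    norm_num)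
  have hG1 : ‖Gx w1‖ ≤ C0 * ‖fx w1‖ := by
    rw [hfw1, norm_mul]
    have h0 := norm_nonneg (Gx w1)
    calc ‖Gx w1‖ = ‖Gx w1‖ * 1 := (mul_one _).symm
      _ ≤ ‖Gx w1‖ * (C0 * ‖riemannZeta (1 / 2 + w1)‖) := by gcongr
      _ = _ := by ring
  -- horizontally
  have hG2 := Gx_hor hC (w := w1) (w' := w) (X := 1) (by rw [hw1im]; linarith) (by rw [hw1im])
    (by rw [hw1im]; linarith) (by rw [hw1re]; norm_num) (by rw [hw0]; norm_num)
  rw [hw1re, hw1im, hw0] at hG2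
  have e1 : |(0 : ℝ) - 1| = 1 := by norm_num
  rw [e1] at hG2
  have hfw : fx w = Gx w * riemannZeta (1 / 2 + w) := by
    apply fx_eq
    · rw [hw0]; norm_num
    · intro h
      have := congrArg Complex.re h
      rw [hw0] at this
      norm_num at this
  have hzy : ‖riemannZeta (1 / 2 + w)‖ ≤ C' * y ^ (ε / 8 : ℝ) := by
    rw [hweq]
    refine (hCb y (by linarith)).trans ?_
    gcongr
    exact le_max_left _ _
  have hy2 : y ≤ 2 * τ := by linarith
  have hyp : y ^ (ε / 8 : ℝ) ≤ 2 ^ (ε / 8) * τ ^ (ε / 8) := by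
    rw [← Real.mul_rpow (by norm_num) hτ0.le]
    exact Real.rpow_le_rpow hy0.le hy2 (by positivity)
  have hlogy : Real.log τ - 1 ≤ Real.log y := by
    have h1 : τ / 2 ≤ y := by linarith
    have h2 : Real.log (τ / 2) ≤ Real.log y := Real.log_le_log (by positivity) h1
    rw [Real.log_div hτ0.ne' (by norm_num)] at h2
    have h3 : Real.log 2 ≤ 1 := by
      have := Real.log_two_lt_d9
      linarith
    linarith
  have hτp : τ ^ (ε / 8 : ℝ) = Real.exp (ε / 8 * Real.log τ) := by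
    rw [Real.rpow_def_of_pos hτ0, mul_comm]
  have hlogA : Real.log A ≤ ε / 8 * Real.log τ := by
    have h1 : 8 * |Real.log A| / ε ≤ Real.log τ := by
      rw [Real.le_log_iff_exp_le hτ0]; exact hτ2
    rw [div_le_iff₀ hε] at h1
    have := le_abs_self (Real.log A)
    linarith
  have hAexp : A ≤ Real.exp (ε / 8 * Real.log τ) := by
    rw [← Real.log_le_iff_le_exp hA0]; exact hlogA
  have hτpos : 0 ≤ Real.log τ := Real.log_nonneg (by linarith)
  calc ‖fx w‖ = ‖Gx w‖ * ‖riemannZeta (1 / 2 + w)‖ := by rw [hfw, norm_mul]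
    _ ≤ (‖Gx w1‖ * Real.exp (1 / 2 * Real.log y * (0 - 1) + C1 * 1)) * (C' * y ^ (ε / 8 : ℝ)) := by
        gcongr
    _ ≤ ((C0 * (‖fx (1 + τ * I)‖ * Real.exp (K * (6 * R)))) *
          Real.exp (-(Real.log τ / 2) + (C1 + 1))) * (C' * (2 ^ (ε / 8) * τ ^ (ε / 8))) := by
        have hexp : Real.exp (1 / 2 * Real.log y * (0 - 1) + C1 * 1) ≤
            Real.exp (-(Real.log τ / 2) + (C1 + 1)) := Real.exp_le_exp.2 (by linarith)
        have hG3 : ‖Gx w1‖ ≤ C0 * (‖fx (1 + τ * I)‖ * Real.exp (K * (6 * R))) :=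
          hG1.trans (by gcongr)
        gcongr
    _ = Mf τ * (A * Real.exp (ε / 8 * Real.log τ)) := by
        rw [hτp, Real.exp_add, hA]
        unfold Mf
        ring
    _ ≤ Mf τ * (Real.exp (ε / 8 * Real.log τ) * Real.exp (ε / 8 * Real.log τ)) := by
        have := (Mf_pos τ).le
        gcongr
    _ ≤ Mf τ * Real.exp (ε * (Real.log τ / 2)) := by
        rw [← Real.exp_add]
        have := (Mf_pos τ).le
        gcongr
        nlinarith

/-- the right half -/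
lemma right_half (hLH : ∀ ε > 0, ∃ C : ℝ, ∀ t : ℝ, 1 ≤ t →
    ‖riemannZeta (1 / 2 + t * I)‖ ≤ C * t ^ (ε : ℝ)) {ε R : ℝ} (hε : 0 < ε) (hR : 1 ≤ R) :
    ∃ τ0 : ℝ, 2 ≤ τ0 ∧ ∀ τ : ℝ, τ0 ≤ τ → ∀ w : ℂ, 0 ≤ w.re → w.re ≤ R → |w.im - τ| ≤ R →
      ‖fx w‖ ≤ Mf τ * Real.exp (Real.log τ / 2 * w.re + ε * (Real.log τ / 2)) := by
  obtain ⟨Cg, τg, hCg, hτg, hgr⟩ := growth
  set H : ℝ := 64 * Cg / ε + R + 3 with hH
  have hH1 : 1 ≤ H := by
    have : 0 ≤ 64 * Cg / ε := by positivity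
    linarith
  have hHR : R + 3 ≤ H := by
    have : 0 ≤ 64 * Cg / ε := by positivity
    linarith
  set R' : ℝ := H + R with hR'
  have hR'1 : 1 ≤ R' := by linarith
  obtain ⟨τ1, hτ1, h1⟩ := crit_line hLH (ε := ε / 2) (R := R') (by positivity) hR'1
  obtain ⟨K, hK1, hK⟩ := size_right (δ := 1 / 2) (R := R') (by norm_num) (by norm_num) hR'1
  set B : ℝ := K * (6 * R') with hB
  have hB0 : 0 ≤ B := by positivity
  refine ⟨max τ1 (max τg (Real.exp (4 * B / ε))), ?_, ?_⟩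
  · exact hτg.trans ((le_max_left _ _).trans (le_max_right _ _))
  intro τ hτ
  simp only [max_le_iff] at hτ
  obtain ⟨a1, a2, a3⟩ := hτ
  have hτR : 30 * R' ≤ τ := hτ1.trans a1
  have hτ0 : 0 < τ := by linarith
  set L : ℝ := Real.log τ / 2 with hL
  have hL0 : 0 ≤ L := by
    have := Real.log_nonneg (show 1 ≤ τ by linarith)
    positivity
  have hBL : B ≤ ε / 2 * L := by
    have h2 : 4 * B / ε ≤ Real.log τ := by
      rw [Real.le_log_iff_exp_le hτ0]; exact a3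
    rw [div_le_iff₀ hε] at h2
    have : Real.log τ = 2 * L := by rw [hL]; ring
    rw [this] at h2
    nlinarith
  have hM0 : 0 < Mf τ := Mf_pos τ
  have hMdef : Mf τ = ‖fx (1 + τ * I)‖ * Real.exp (-L) := rfl
  have hap : 0 < ‖fx (1 + τ * I)‖ := by
    refine norm_pos_iff.2 fun h => ?_
    have h1 := fx_zero_re h
    have h2 : (1 + (τ : ℂ) * I).re = 1 := by simp
    rw [h2] at h1
    norm_num at h1
  -- to the right of 3/4
  have hright : ∀ w : ℂ, 3 / 4 ≤ w.re → w.re ≤ 3 * R' → |w.im - τ| ≤ 3 * R' →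
      ‖fx w‖ ≤ Mf τ * Real.exp (L * w.re + ε / 2 * L) := by
    intro w b1 b2 b3
    obtain ⟨hne, -, hs⟩ := hK τ hτR w (by linarith) b2 b3
    have h2 := (abs_le.1 hs).2
    have hpos : 0 < ‖fx w‖ := norm_pos_iff.2 hne
    have h3 : Real.log ‖fx w‖ ≤ Real.log (Mf τ * Real.exp (L * w.re + ε / 2 * L)) := by
      rw [hMdef, Real.log_mul (by positivity) (Real.exp_pos _).ne', Real.log_exp,
        Real.log_mul hap.ne' (Real.exp_pos _).ne', Real.log_exp]
      have : Real.log τ / 2 * (w.re - 1) = L * w.re - L := by rw [hL]; ring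
      linarith
    exact (Real.log_le_log_iff hpos (by positivity)).1 h3
  intro w c1 c2 c3
  rcases le_or_gt (3 / 4) w.re with hw | hw
  · refine (hright w hw (by linarith) (by linarith)).trans ?_
    gcongr
    linarith
  -- the rectangle
  set t : ℝ := w.im with ht
  obtain ⟨t1, t2⟩ := abs_le.1 c3
  set F : ℂ → ℂ := fun u => fx (u + (3 / 8 : ℝ)) * cexp (-(L : ℂ) * (u + (3 / 8 : ℝ))) with hF
  have hFd : Differentiable ℂ F := by
    have h1 : Differentiable ℂ fun u : ℂ => fx (u + (3 / 8 : ℝ)) :=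
      fx_diff.comp (by fun_prop)
    exact h1.mul (by fun_prop)
  have hFn : ∀ u : ℂ, ‖F u‖ = ‖fx (u + (3 / 8 : ℝ))‖ * Real.exp (-(L * (u.re + 3 / 8))) := by
    intro u
    rw [hF]
    simp only
    rw [norm_mul, Complex.norm_exp]
    congr 2
    simp
  set V : ℝ := Mf τ * Real.exp (ε / 2 * L) with hV
  have hV0 : 0 ≤ V := by positivity
  set Kt : ℝ := Cg * Real.log τ * (2 * H) with hKt
  have hKt0 : 0 ≤ Kt := by
    have := Real.log_nonneg (show 1 ≤ τ by linarith)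
    positivity
  have hside : ∀ u : ℂ, |u.re| = 3 / 8 → |u.im - t| ≤ H → ‖F u‖ ≤ V := by
    intro u d1 d2
    obtain ⟨s1, s2⟩ := abs_le.1 d2
    have him : (u + ((3 / 8 : ℝ) : ℂ)).im = u.im := by simp
    have hre : (u + ((3 / 8 : ℝ) : ℂ)).re = u.re + 3 / 8 := by simp
    have hclose : |u.im - τ| ≤ R' := by rw [abs_le]; constructor <;> linarith
    rw [hFn]
    rcases eq_or_eq_neg_of_abs_eq d1 with h | h
    · have h3 := hright (u + ((3 / 8 : ℝ) : ℂ)) (by rw [hre, h]; norm_num)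
        (by rw [hre, h]; linarith) (by rw [him]; linarith)
      rw [hre] at h3
      calc ‖fx (u + ((3 / 8 : ℝ) : ℂ))‖ * Real.exp (-(L * (u.re + 3 / 8)))
          ≤ (Mf τ * Real.exp (L * (u.re + 3 / 8) + ε / 2 * L)) *
            Real.exp (-(L * (u.re + 3 / 8))) := by gcongr
        _ = V := by
            rw [mul_assoc, ← Real.exp_add, hV]
            congr 2
            ring
    · have h3 := h1 τ a1 (u + ((3 / 8 : ℝ) : ℂ)) (by rw [hre, h]; norm_num)
        (by rw [him]; exact hclose)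
      rw [h]
      have e1 : -(L * (-(3 / 8 : ℝ) + 3 / 8)) = 0 := by ring
      rw [e1, Real.exp_zero, mul_one]
      exact h3
  have htop : ∀ u : ℂ, |u.re| ≤ 3 / 8 → |u.im - t| = H → ‖F u‖ ≤ V * Real.exp Kt := by
    intro u d1 d2
    obtain ⟨s1, s2⟩ := abs_le.1 d2.le
    obtain ⟨s3, s4⟩ := abs_le.1 d1
    have hre : (u + ((3 / 8 : ℝ) : ℂ)).re = u.re + 3 / 8 := by simp
    have him : (u + ((3 / 8 : ℝ) : ℂ)).im = u.im := by simp
    have hd : ‖(u + ((3 / 8 : ℝ) : ℂ)) - τ * I‖ ≤ H + R + 1 := by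
      refine (Complex.norm_le_abs_re_add_abs_im _).trans ?_
      have e1 : ((u + ((3 / 8 : ℝ) : ℂ)) - τ * I).re = u.re + 3 / 8 := by simp
      have e2 : ((u + ((3 / 8 : ℝ) : ℂ)) - τ * I).im = u.im - τ := by simp
      rw [e1, e2]
      have h3 : |u.re + 3 / 8| ≤ 1 := by rw [abs_le]; constructor <;> linarith
      have h4 : |u.im - τ| ≤ H + R := by rw [abs_le]; constructor <;> linarith
      linarith
    have hn : ‖u + ((3 / 8 : ℝ) : ℂ)‖ ≤ 2 * τ := by
      have h3 : ‖u + ((3 / 8 : ℝ) : ℂ)‖ ≤ ‖(u + ((3 / 8 : ℝ) : ℂ)) - τ * I‖ + ‖(τ : ℂ) * I‖ := by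
        simpa using norm_add_le ((u + ((3 / 8 : ℝ) : ℂ)) - τ * I) (τ * I)
      have h4 : ‖(τ : ℂ) * I‖ = τ := by
        rw [norm_mul, Complex.norm_I, mul_one, Complex.norm_real, Real.norm_of_nonneg hτ0.le]
      linarith
    have h3 := hgr τ a2 _ hn
    rw [hFn]
    have h5 : 0 ≤ Real.log τ := Real.log_nonneg (show 1 ≤ τ by linarith)
    calc ‖fx (u + ((3 / 8 : ℝ) : ℂ))‖ * Real.exp (-(L * (u.re + 3 / 8)))
        ≤ (Mf τ * Real.exp (Cg * Real.log τ * (1 + ‖(u + ((3 / 8 : ℝ) : ℂ)) - τ * I‖))) * 1 := by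
          gcongr
          rw [Real.exp_le_one_iff]
          have : 0 ≤ L * (u.re + 3 / 8) := mul_nonneg hL0 (by linarith)
          linarith
      _ ≤ V * Real.exp Kt := by
          rw [mul_one, hV, hKt]
          have h6 : Mf τ ≤ Mf τ * Real.exp (ε / 2 * L) := by
            have : 1 ≤ Real.exp (ε / 2 * L) := Real.one_le_exp (by positivity)
            nlinarith
          gcongr
          linarith
  have hmain := gauss_strip' hFd (r := 3 / 8) (H := H) (t := t) (V := V) (K := Kt) (by norm_num)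
    hH1 hV0 hKt0 hside htop (w - ((3 / 8 : ℝ) : ℂ)) (by
      have : (w - ((3 / 8 : ℝ) : ℂ)).re = w.re - 3 / 8 := by simp
      rw [this, abs_le]
      constructor <;> linarith) (by
      have : (w - ((3 / 8 : ℝ) : ℂ)).im = t := by simp [ht]
      rw [this]
      simp)
  rw [hFn] at hmain
  have e2 : w - ((3 / 8 : ℝ) : ℂ) + ((3 / 8 : ℝ) : ℂ) = w := by ring
  have e3 : (w - ((3 / 8 : ℝ) : ℂ)).re + 3 / 8 = w.re := by simp
  rw [e2, e3] at hmain
  have hKH : Kt / H ^ 2 * ((3 / 8 : ℝ) ^ 2 + 1) ≤ ε / 2 * L := by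
    have h3 : Kt / H ^ 2 = 4 * Cg * L / H := by
      rw [hKt, hL]
      field_simp
      ring
    rw [h3]
    have h4 : 64 * Cg / ε ≤ H := by linarith
    have h5 : Cg ≤ ε * H / 64 := by
      rw [div_le_iff₀ hε] at h4
      linarith
    have h6 : 4 * Cg * L / H ≤ ε / 16 * L := by
      rw [div_le_iff₀ (by linarith)]
      nlinarith [mul_le_mul_of_nonneg_right h5 hL0]
    have h7 : 0 ≤ ε / 16 * L := by positivity
    calc 4 * Cg * L / H * ((3 / 8 : ℝ) ^ 2 + 1) ≤ ε / 16 * L * 2 := by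
          gcongr
          norm_num
      _ ≤ ε / 2 * L := by nlinarith
  calc ‖fx w‖ = ‖fx w‖ * Real.exp (-(L * w.re)) * Real.exp (L * w.re) := by
        rw [mul_assoc, ← Real.exp_add]; simp
    _ ≤ (V * Real.exp (Kt / H ^ 2 * ((3 / 8 : ℝ) ^ 2 + 1))) * Real.exp (L * w.re) := by gcongr
    _ ≤ (V * Real.exp (ε / 2 * L)) * Real.exp (L * w.re) := by gcongr
    _ = Mf τ * Real.exp (L * w.re + ε * L) := by
        rw [hV, mul_assoc, mul_assoc, ← Real.exp_add, ← Real.exp_add]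
        congr 2
        ring

/-- P3 -/
theorem fx_lh (hLH : ∀ ε > 0, ∃ C : ℝ, ∀ t : ℝ, 1 ≤ t →
    ‖riemannZeta (1 / 2 + t * I)‖ ≤ C * t ^ (ε : ℝ)) {ε R : ℝ} (hε : 0 < ε) (hR : 1 ≤ R) :
    ∃ τ0 : ℝ, 2 ≤ τ0 ∧ ∀ τ : ℝ, τ0 ≤ τ → ∀ w : ℂ, |w.re| ≤ R → |w.im - τ| ≤ R →
      ‖fx w‖ ≤ Pool.Agent.Helper75.JE.Mf τ *
        Real.exp (Real.log τ / 2 * |w.re| + ε * (Real.log τ / 2)) := by
  obtain ⟨τ0, h1, h2⟩ := right_half hLH hε hR
  refine ⟨τ0, h1, fun τ hτ w hw1 hw2 => ?_⟩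
  rcases le_total 0 w.re with h | h
  · rw [abs_of_nonneg h]
    exact h2 τ hτ w h ((le_abs_self _).trans hw1) hw2
  · rw [abs_of_nonpos h]
    have h3 := h2 τ hτ (-(starRingEnd ℂ w)) (by simpa using h)
      (by simp only [neg_re, conj_re]; exact (neg_le_abs _).trans hw1)
      (by simpa using hw2)
    rw [fx_even, fx_conj, RCLike.norm_conj] at h3
    have h4 : (-(starRingEnd ℂ w)).re = -w.re := by simp
    rw [h4] at h3
    exact h3

end Pool.Agent.Helper82.JE
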