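import Pool.Agent.Helper82.JE.Est0

set_option autoImplicit false
set_option maxHeartbeats 1000000

open Complex Filter Topology Metric Set
open scoped ComplexConjugate

namespace Pool.Agent.Helper82.JE

open Pool.Agent.Helper75.Jen Pool.Agent.Helper68.UL

/-- `FF` (with `FF (w^2) = fx w`, `fx w = 8 xi (1/2 + w)` up to a constant) near `-τ²`, rescaled:
`-τ² + 2τζ = w²` with `w = iτ - iζ + O(1/τ)`, so `Re w ~ Im ζ` -/
noncomputable def Ph (τ : ℝ) (ζ : ℂ) : ℂ := FF (((-(τ ^ 2) : ℝ) : ℂ) + 2 * τ * ζ)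

/-- the size at `1 + iτ`, normalised -/
noncomputable def Mf (τ : ℝ) : ℝ := ‖fx (1 + τ * I)‖ * Real.exp (-(Real.log τ / 2))

lemma Mf_pos (τ : ℝ) : 0 < Mf τ := by
  have h : fx (1 + τ * I) ≠ 0 := by
    intro h
    have h1 := fx_zero_re h
    have h2 : (1 + (τ : ℂ) * I).re = 1 := by simp
    rw [h2] at h1
    norm_num at h1
  have := norm_pos_iff.2 h
  unfold Mf
  positivity

/-- mean value inequality for the logarithm of the size, along a segment -/
lemma seg_log {a w : ℂ} {P K D : ℝ} (hK : 0 ≤ K) (hD : ‖w - a‖ ≤ D)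
    (hreg : ∀ s ∈ Icc (0 : ℝ) 1, fx (a + s * (w - a)) ≠ 0 ∧
      ‖logDeriv fx (a + s * (w - a)) - (P : ℂ)‖ ≤ K) :
    |Real.log ‖fx w‖ - Real.log ‖fx a‖ - P * (w.re - a.re)| ≤ K * D := by
  obtain ⟨d, hd⟩ : ∃ d : ℂ, d = w - a := ⟨_, rfl⟩
  rw [← hd] at hreg hD
  have hdre : d.re = w.re - a.re := by rw [hd, sub_re]
  have hline : ∀ s : ℝ, HasDerivAt (fun s : ℝ => a + s * d) d s := by
    intro s
    have := ((hasDerivAt_id (s : ℂ)).comp_ofReal.mul_const d).const_add a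
    simpa using this
  have hder : ∀ s ∈ Icc (0 : ℝ) 1, HasDerivWithinAt
      (fun s : ℝ => Real.log ‖fx (a + s * d)‖ - P * d.re * s)
      ((logDeriv fx (a + s * d) - (P : ℂ)) * d).re (Icc 0 1) s := by
    intro s hs
    have h5 : HasDerivAt (fun s : ℝ => fx (a + s * d)) (deriv fx (a + s * d) * d) s :=
      HasDerivAt.comp (h₂ := fx) (h := fun s : ℝ => a + s * d) s
        (fx_diff (a + s * d)).hasDerivAt (hline s)
    have h6 := hasDerivAt_log_norm h5 (hreg s hs).1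
    have h7 := h6.sub ((hasDerivAt_id s).const_mul (P * d.re))
    refine (h7.congr_deriv ?_).hasDerivWithinAt
    have e9 : ((logDeriv fx (a + s * d) - (P : ℂ)) * d).re =
        (logDeriv fx (a + s * d) * d).re - P * d.re := by
      rw [sub_mul, sub_re, re_ofReal_mul]
    rw [e9, logDeriv_apply,
      show deriv fx (a + s * d) * d / fx (a + s * d) = deriv fx (a + s * d) / fx (a + s * d) * d by
        ring]
    ring
  have hfin := (convex_Icc (0 : ℝ) 1).norm_image_sub_le_of_norm_hasDerivWithin_le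
    (C := K * D) hder (fun s hs => by
      rw [Real.norm_eq_abs]
      refine (abs_re_le_norm _).trans ?_
      rw [norm_mul]
      exact mul_le_mul (hreg s hs).2 hD (norm_nonneg _) hK)
    (left_mem_Icc.2 zero_le_one) (right_mem_Icc.2 zero_le_one)
  simp only [ofReal_one, ofReal_zero, one_mul, zero_mul, add_zero, mul_one, mul_zero, sub_zero,
    norm_one] at hfin
  have e5 : a + d = w := by rw [hd]; ring
  rw [e5, Real.norm_eq_abs, hdre] at hfin
  have e6 : Real.log ‖fx w‖ - Real.log ‖fx a‖ - P * (w.re - a.re) =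
      Real.log ‖fx w‖ - P * (w.re - a.re) - Real.log ‖fx a‖ := by ring
  rw [e6]
  exact hfin

/-- logarithmic derivative and size to the right -/
theorem size_right {δ R : ℝ} (hδ : 0 < δ) (hδ1 : δ ≤ 1) (hR : 1 ≤ R) : ∃ K : ℝ, 1 ≤ K ∧
    ∀ τ : ℝ, 30 * R ≤ τ → ∀ w : ℂ, 1 / 2 + δ / 2 ≤ w.re → w.re ≤ 3 * R → |w.im - τ| ≤ 3 * R →
      fx w ≠ 0 ∧ ‖logDeriv fx w - ((Real.log τ / 2 : ℝ) : ℂ)‖ ≤ K ∧
      |Real.log ‖fx w‖ - Real.log ‖fx (1 + τ * I)‖ -
        Real.log τ / 2 * (w.re - 1)| ≤ K * (6 * R) := by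
  obtain ⟨K, hK1, hK⟩ := fx_ld hδ
  refine ⟨K + 1, by linarith, ?_⟩
  intro τ hτ
  have hτ0 : 0 < τ := by linarith
  have key : ∀ w : ℂ, 1 / 2 + δ / 2 ≤ w.re → w.re ≤ 3 * R → |w.im - τ| ≤ 3 * R →
      fx w ≠ 0 ∧ ‖logDeriv fx w - ((Real.log τ / 2 : ℝ) : ℂ)‖ ≤ K + 1 := by
    intro w h1 h2 h3
    have h4 := abs_le.1 h3
    obtain ⟨a1, a2⟩ := hK w (by linarith) (by
      rw [abs_of_nonneg (by linarith)]
      linarith) h1
    refine ⟨a1, ?_⟩
    have h5 := log_near hτ0 (a := w.im) (by linarith) (by linarith)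
    calc ‖logDeriv fx w - ((Real.log τ / 2 : ℝ) : ℂ)‖
        = ‖(logDeriv fx w - ((1 / 2 * Real.log w.im : ℝ) : ℂ)) +
            (((Real.log w.im - Real.log τ) / 2 : ℝ) : ℂ)‖ := by
          congr 1
          push_cast
          ring
      _ ≤ K + 1 := by
          refine (norm_add_le _ _).trans (add_le_add a2 ?_)
          rw [Complex.norm_real, Real.norm_eq_abs, abs_div]
          norm_num
          linarith
  intro w h1 h2 h3
  refine ⟨(key w h1 h2 h3).1, (key w h1 h2 h3).2, ?_⟩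
  have hare : (1 + (τ : ℂ) * I).re = 1 := by simp
  have haim : (1 + (τ : ℂ) * I).im = τ := by simp
  have hdre : (w - (1 + (τ : ℂ) * I)).re = w.re - 1 := by rw [sub_re, hare]
  have hdim : (w - (1 + (τ : ℂ) * I)).im = w.im - τ := by rw [sub_im, haim]
  have h := seg_log (a := 1 + τ * I) (w := w) (P := Real.log τ / 2) (K := K + 1) (D := 6 * R)
    (by linarith) (by
      have h5 := norm_le_abs_re_add_abs_im (w - (1 + (τ : ℂ) * I))
      rw [hdre, hdim] at h5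
      have h6 : |w.re - 1| ≤ 3 * R := by
        rw [abs_le]
        constructor <;> linarith
      linarith) (by
      intro s hs
      have e1 : ((1 + (τ : ℂ) * I) + s * (w - (1 + (τ : ℂ) * I))).re = 1 + s * (w.re - 1) := by
        rw [add_re, re_ofReal_mul, hare, hdre]
      have e2 : ((1 + (τ : ℂ) * I) + s * (w - (1 + (τ : ℂ) * I))).im = τ + s * (w.im - τ) := by
        rw [add_im, im_ofReal_mul, haim, hdim]
      have s1 := hs.1
      have s2 := hs.2
      refine key _ ?_ ?_ ?_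
      · rw [e1]
        nlinarith
      · rw [e1]
        nlinarith
      · rw [e2]
        have e3 : τ + s * (w.im - τ) - τ = s * (w.im - τ) := by ring
        rw [e3, abs_mul, abs_of_nonneg hs.1]
        nlinarith [abs_nonneg (w.im - τ)])
  rwa [hare] at h

/-- geometry -/
lemma geo {R τ : ℝ} (hR : 1 ≤ R) (hτ : 30 * R ≤ τ) {ζ : ℂ} (hζ : ‖ζ‖ ≤ R) {u : ℂ}
    (hu : u = ((-(τ ^ 2) : ℝ) : ℂ) + 2 * τ * ζ) :
    u.re < 0 ∧ 86 / 100 * τ ≤ (wf u).im ∧ ‖wf u - τ * I‖ ≤ 2 * R ∧ |(wf u).re| ≤ 3 * R ∧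
      |(wf u).im - τ| ≤ 3 * R ∧ |(wf u).re - ζ.im| * τ ≤ 3 * R ^ 2 := by
  have hτ0 : 0 < τ := by linarith
  have hn : ‖u - ((-(τ ^ 2) : ℝ) : ℂ)‖ = 2 * τ * ‖ζ‖ := by
    rw [hu, add_sub_cancel_left, norm_mul, norm_mul, Complex.norm_real, Real.norm_of_nonneg hτ0.le]
    norm_num
  have hn2 : ‖u - ((-(τ ^ 2) : ℝ) : ℂ)‖ < τ ^ 2 / 4 := by
    rw [hn]
    nlinarith [norm_nonneg ζ]
  obtain ⟨g1, g2, g3, g4, g5⟩ := wf_geom hτ0 hn2
  set w := wf u with hw
  have hsq : w ^ 2 = u := wf_sq u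
  have huim : u.im = 2 * τ * ζ.im := by
    rw [hu, add_im, ofReal_im, zero_add]
    have : (2 * (τ : ℂ) * ζ) = ((2 * τ : ℝ) : ℂ) * ζ := by push_cast; ring
    rw [this, im_ofReal_mul]
  have e1 : (w - τ * I) * (w + τ * I) = 2 * τ * ζ := by
    have : (w - τ * I) * (w + τ * I) = w ^ 2 - (τ : ℂ) ^ 2 * I ^ 2 := by ring
    rw [this, hsq, hu, I_sq]
    push_cast
    ring
  have e2 : ‖w - τ * I‖ * ‖w + τ * I‖ = 2 * τ * ‖ζ‖ := by
    rw [← norm_mul, e1, norm_mul, norm_mul, Complex.norm_real, Real.norm_of_nonneg hτ0.le]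
    norm_num
  have e3 : τ ≤ ‖w + τ * I‖ := by
    refine le_trans ?_ ((le_abs_self _).trans (abs_im_le_norm _))
    have : (w + τ * I).im = w.im + τ := by simp
    rw [this]
    linarith
  have e4 : ‖w - τ * I‖ ≤ 2 * R := by
    have h1 : ‖w - τ * I‖ * τ ≤ 2 * τ * R := by
      calc ‖w - τ * I‖ * τ ≤ ‖w - τ * I‖ * ‖w + τ * I‖ := by gcongr
        _ = 2 * τ * ‖ζ‖ := e2
        _ ≤ _ := by gcongr
    have h2 : ‖w - τ * I‖ * τ ≤ (2 * R) * τ := by linarith
    exact le_of_mul_le_mul_right h2 hτ0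
  have e5 : |w.re| ≤ 2 * R := by
    have h1 := (abs_re_le_norm (w - τ * I)).trans e4
    have : (w - τ * I).re = w.re := by simp
    rwa [this] at h1
  have e6 : |w.im - τ| ≤ 2 * R := by
    have h1 := (abs_im_le_norm (w - τ * I)).trans e4
    have : (w - τ * I).im = w.im - τ := by simp
    rwa [this] at h1
  refine ⟨g1, g2, e4, by linarith, by linarith, ?_⟩
  have hζim : |ζ.im| ≤ R := (abs_im_le_norm ζ).trans hζ
  have e7 : (w.re - ζ.im) * w.im = ζ.im * (τ - w.im) := by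
    have : 2 * w.re * w.im = 2 * τ * ζ.im := by rw [← huim]; exact g5
    linarith
  have e8 : |w.re - ζ.im| * w.im ≤ R * (2 * R) := by
    have h1 : |w.re - ζ.im| * w.im = |ζ.im| * |τ - w.im| := by
      rw [← abs_mul, ← e7, abs_mul, abs_of_pos (by nlinarith : 0 < w.im)]
    rw [h1, abs_sub_comm τ]
    exact mul_le_mul hζim e6 (abs_nonneg _) (by linarith)
  have h9 : |w.re - ζ.im| * (86 / 100 * τ) ≤ |w.re - ζ.im| * w.im := by gcongr
  nlinarith [abs_nonneg (w.re - ζ.im)]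

/-- the local estimates, with the explicit size `Mf` -/
theorem estM {δ R : ℝ} (hδ : 0 < δ) (hδ1 : δ ≤ 1 / 8) (hR : 1 ≤ R) :
    ∃ C τ0 : ℝ, 1 ≤ C ∧ 2 ≤ τ0 ∧ ∀ τ : ℝ, τ0 ≤ τ →
      (∀ ζ : ℂ, ‖ζ‖ ≤ R →
        ‖Ph τ ζ‖ ≤ C * Mf τ * Real.exp (Real.log τ / 2 * max |ζ.im| (1 / 2 + δ))) ∧
      (∀ ζ : ℂ, ‖ζ‖ ≤ R → 1 / 2 + δ ≤ ζ.im → Ph τ ζ ≠ 0 ∧
        ‖logDeriv (Ph τ) ζ + ((Real.log τ / 2 : ℝ) : ℂ) * I‖ ≤ C ∧
        Mf τ * Real.exp (Real.log τ / 2 * ζ.im) ≤ C * ‖Ph τ ζ‖) := by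
  obtain ⟨Cs, hCs1, hCs⟩ := to_right hδ (by linarith)
  obtain ⟨K, hK1, hK⟩ := size_right hδ (by linarith) hR
  set E : ℝ := Real.exp (K * (6 * R) + 3 * R ^ 2) with hE
  have hE1 : 1 ≤ E := Real.one_le_exp (by positivity)
  have hCsE : 1 ≤ Cs * E := by nlinarith
  refine ⟨Cs * E + 2 * K + 2 * R, max (30 * R) (6 * R ^ 2 / δ), by linarith,
    le_max_of_le_left (by linarith), ?_⟩
  intro τ hτ
  have hτ1 : 30 * R ≤ τ := (le_max_left _ _).trans hτ
  have hτ2 : 6 * R ^ 2 / δ ≤ τ := (le_max_right _ _).trans hτ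
  have hτ0 : 0 < τ := by linarith
  set L : ℝ := Real.log τ / 2 with hL
  have hL0 : 0 ≤ L := by
    have := Real.log_nonneg (show 1 ≤ τ by linarith)
    linarith
  have hLτ : L ≤ τ / 2 := by
    have := Real.log_le_sub_one_of_pos hτ0
    linarith
  set b : ℝ := 1 / 2 + δ / 2 with hb
  have hb1 : b ≤ 1 := by linarith
  have hap : 0 < ‖fx (1 + τ * I)‖ := by
    refine norm_pos_iff.2 fun h => ?_
    have h1 := fx_zero_re h
    have h2 : (1 + (τ : ℂ) * I).re = 1 := by simp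
    rw [h2] at h1
    norm_num at h1
  have hM : Mf τ = ‖fx (1 + τ * I)‖ * Real.exp (-L) := rfl
  have hM0 : 0 < Mf τ := Mf_pos τ
  -- sizes to the right
  have hsz : ∀ w : ℂ, b ≤ w.re → w.re ≤ 3 * R → |w.im - τ| ≤ 3 * R →
      ‖fx w‖ ≤ Mf τ * Real.exp (L * w.re) * Real.exp (K * (6 * R)) ∧
      Mf τ * Real.exp (L * w.re) ≤ Real.exp (K * (6 * R)) * ‖fx w‖ := by
    intro w h1 h2 h3
    obtain ⟨h4, -, h5⟩ := hK τ hτ1 w h1 h2 h3
    have hwp : 0 < ‖fx w‖ := norm_pos_iff.2 h4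
    rw [← hL] at h5
    have h6 := abs_le.1 h5
    rw [hM]
    constructor
    · calc ‖fx w‖ = Real.exp (Real.log ‖fx w‖) := (Real.exp_log hwp).symm
        _ ≤ Real.exp (Real.log ‖fx (1 + τ * I)‖ + -L + L * w.re + K * (6 * R)) := by
            refine Real.exp_le_exp.2 ?_
            have := h6.2
            linarith
        _ = _ := by rw [Real.exp_add, Real.exp_add, Real.exp_add, Real.exp_log hap]
    · calc ‖fx (1 + τ * I)‖ * Real.exp (-L) * Real.exp (L * w.re)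
          = Real.exp (Real.log ‖fx (1 + τ * I)‖ + -L + L * w.re) := by
            rw [Real.exp_add, Real.exp_add, Real.exp_log hap]
        _ ≤ Real.exp (K * (6 * R) + Real.log ‖fx w‖) := by
            refine Real.exp_le_exp.2 ?_
            have := h6.1
            linarith
        _ = _ := by rw [Real.exp_add, Real.exp_log hwp]
  -- upper bound everywhere
  have hup : ∀ w : ℂ, |w.re| ≤ 3 * R → |w.im - τ| ≤ 3 * R →
      ‖fx w‖ ≤ Cs * (Mf τ * Real.exp (L * max |w.re| b) * Real.exp (K * (6 * R))) := by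
    intro w h1 h2
    have h3 := hCs w
    obtain ⟨w', hw'⟩ : ∃ w' : ℂ, w' = ((max |w.re| b : ℝ) : ℂ) + w.im * I := ⟨_, rfl⟩
    have hre' : w'.re = max |w.re| b := by simp [hw']
    have him' : w'.im = w.im := by simp [hw']
    rw [← hw'] at h3
    refine h3.trans (mul_le_mul_of_nonneg_left ?_ (by linarith))
    have h4 := (hsz w' (by rw [hre']; exact le_max_right _ _) (by
      rw [hre']
      exact max_le h1 (by linarith)) (by rw [him']; exact h2)).1
    rwa [hre'] at h4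
  refine ⟨?_, ?_⟩
  · intro ζ hζ
    obtain ⟨g1, g2, g3, g4, g5, g6⟩ := geo hR hτ1 hζ rfl
    set u : ℂ := ((-(τ ^ 2) : ℝ) : ℂ) + 2 * τ * ζ with hu
    have hPh : Ph τ ζ = fx (wf u) := FF_wf u
    rw [hPh]
    refine (hup _ g4 g5).trans ?_
    have h1 : L * max |(wf u).re| b ≤ L * max |ζ.im| (1 / 2 + δ) + 3 * R ^ 2 := by
      have h2 : L * |(wf u).re - ζ.im| ≤ 3 * R ^ 2 := by
        calc L * |(wf u).re - ζ.im| ≤ τ / 2 * |(wf u).re - ζ.im| := by gcongr
          _ ≤ 3 * R ^ 2 := by nlinarith [sq_nonneg R]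
      have h3 : max |(wf u).re| b ≤ max |ζ.im| (1 / 2 + δ) + |(wf u).re - ζ.im| := by
        refine max_le ?_ ?_
        · have h4 : |(wf u).re| ≤ |ζ.im| + |(wf u).re - ζ.im| := by
            have := abs_add_le ζ.im ((wf u).re - ζ.im)
            rwa [add_sub_cancel] at this
          linarith [le_max_left |ζ.im| (1 / 2 + δ)]
        · have := le_max_right |ζ.im| (1 / 2 + δ)
          have := abs_nonneg ((wf u).re - ζ.im)
          linarith
      calc L * max |(wf u).re| b ≤ L * (max |ζ.im| (1 / 2 + δ) + |(wf u).re - ζ.im|) := by gcongr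
        _ ≤ _ := by rw [mul_add]; linarith
    have h2 : Real.exp (L * max |(wf u).re| b) * Real.exp (K * (6 * R)) ≤
        E * Real.exp (L * max |ζ.im| (1 / 2 + δ)) := by
      rw [hE, ← Real.exp_add, ← Real.exp_add]
      refine Real.exp_le_exp.2 ?_
      linarith
    calc Cs * (Mf τ * Real.exp (L * max |(wf u).re| b) *
          Real.exp (K * (6 * R)))
        = Cs * (Mf τ) * (Real.exp (L * max |(wf u).re| b) *
          Real.exp (K * (6 * R))) := by ring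
      _ ≤ Cs * (Mf τ) * (E * Real.exp (L * max |ζ.im| (1 / 2 + δ))) := by
          gcongr
      _ = (Cs * E) * (Mf τ) * Real.exp (L * max |ζ.im| (1 / 2 + δ)) := by
          ring
      _ ≤ _ := by
          gcongr
          linarith
  · intro ζ hζ him
    obtain ⟨g1, g2, g3, g4, g5, g6⟩ := geo hR hτ1 hζ rfl
    set u : ℂ := ((-(τ ^ 2) : ℝ) : ℂ) + 2 * τ * ζ with hu
    set w : ℂ := wf u with hw
    have hPh : Ph τ ζ = fx w := FF_wf u
    have hwre : b ≤ w.re := by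
      have h1 : |w.re - ζ.im| ≤ δ / 2 := by
        have h2 : 6 * R ^ 2 ≤ δ * τ := by
          rw [div_le_iff₀ hδ] at hτ2
          linarith
        have h3 : |w.re - ζ.im| * τ ≤ δ / 2 * τ := by linarith
        exact le_of_mul_le_mul_right h3 hτ0
      have := (abs_le.1 h1).1
      linarith
    have hwre2 : w.re ≤ 3 * R := (le_abs_self _).trans g4
    obtain ⟨k1, k2, -⟩ := hK τ hτ1 w hwre hwre2 g5
    have hw0 : w ≠ 0 := by
      intro h
      rw [h] at g2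
      simp at g2
      linarith
    refine ⟨by rw [hPh]; exact k1, ?_, ?_⟩
    · have hd1 : HasDerivAt (fun ζ : ℂ => ((-(τ ^ 2) : ℝ) : ℂ) + 2 * τ * ζ) (2 * τ) ζ := by
        simpa using ((hasDerivAt_id ζ).const_mul (2 * (τ : ℂ))).const_add (((-(τ ^ 2) : ℝ) : ℂ))
      have hd2 : HasDerivAt (fun ζ : ℂ => wf (((-(τ ^ 2) : ℝ) : ℂ) + 2 * τ * ζ))
          (1 / (2 * w) * (2 * τ)) ζ :=
        HasDerivAt.comp (h₂ := wf) (h := fun ζ : ℂ => ((-(τ ^ 2) : ℝ) : ℂ) + 2 * τ * ζ) ζ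
          (wf_hasDeriv g1) hd1
      have hd3 : HasDerivAt (fun ζ : ℂ => fx (wf (((-(τ ^ 2) : ℝ) : ℂ) + 2 * τ * ζ)))
          (deriv fx w * (1 / (2 * w) * (2 * τ))) ζ :=
        HasDerivAt.comp (h₂ := fx) (h := fun ζ : ℂ => wf (((-(τ ^ 2) : ℝ) : ℂ) + 2 * τ * ζ)) ζ
          (fx_diff w).hasDerivAt hd2
      have hfun : Ph τ = fun ζ : ℂ => fx (wf (((-(τ ^ 2) : ℝ) : ℂ) + 2 * τ * ζ)) := by
        funext z
        exact FF_wf _
      have e1 : logDeriv (Ph τ) ζ = logDeriv fx w * (τ / w) := by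
        rw [logDeriv_apply, hfun, hd3.deriv, logDeriv_apply]
        simp only
        rw [← hu, ← hw]
        field_simp
      have hwn : 86 / 100 * τ ≤ ‖w‖ := g2.trans ((le_abs_self _).trans (abs_im_le_norm _))
      have hwn0 : 0 < ‖w‖ := norm_pos_iff.2 hw0
      have e2 : ‖(τ : ℂ) / w‖ ≤ 2 := by
        rw [norm_div, Complex.norm_real, Real.norm_of_nonneg hτ0.le, div_le_iff₀ hwn0]
        linarith
      have e3 : ‖(τ : ℂ) / w + I‖ * τ ≤ 3 * R := by
        have h1 : (τ : ℂ) / w + I = I * (w - τ * I) / w := by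
          field_simp
          linear_combination (τ : ℂ) * I_sq
        rw [h1, norm_div, norm_mul, norm_I, one_mul, div_mul_eq_mul_div, div_le_iff₀ hwn0]
        nlinarith [norm_nonneg (w - τ * I)]
      have e4 : ‖((L : ℝ) : ℂ) * ((τ : ℂ) / w + I)‖ ≤ 2 * R := by
        rw [norm_mul, Complex.norm_real, Real.norm_of_nonneg hL0]
        calc L * ‖(τ : ℂ) / w + I‖ ≤ τ / 2 * ‖(τ : ℂ) / w + I‖ := by gcongr
          _ ≤ 2 * R := by nlinarith
      rw [e1]
      calc ‖logDeriv fx w * (τ / w) + (L : ℂ) * I‖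
          = ‖(logDeriv fx w - (L : ℂ)) * (τ / w) + (L : ℂ) * ((τ : ℂ) / w + I)‖ := by
            congr 1; ring
        _ ≤ K * 2 + 2 * R := by
            refine (norm_add_le _ _).trans (add_le_add ?_ e4)
            rw [norm_mul]
            exact mul_le_mul k2 e2 (norm_nonneg _) (by linarith)
        _ ≤ _ := by linarith
    · have h1 := (hsz w hwre hwre2 g5).2
      rw [hPh]
      have h2 : L * ζ.im ≤ L * w.re + 3 * R ^ 2 := by
        have h2 : L * |w.re - ζ.im| ≤ 3 * R ^ 2 := by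
          calc L * |w.re - ζ.im| ≤ τ / 2 * |w.re - ζ.im| := by gcongr
            _ ≤ 3 * R ^ 2 := by nlinarith [sq_nonneg R]
        have h3 : ζ.im ≤ w.re + |w.re - ζ.im| := by
          have := neg_abs_le (w.re - ζ.im)
          linarith
        calc L * ζ.im ≤ L * (w.re + |w.re - ζ.im|) := by gcongr
          _ ≤ _ := by rw [mul_add]; linarith
      calc Mf τ * Real.exp (L * ζ.im)
          ≤ Mf τ * Real.exp (L * w.re + 3 * R ^ 2) := by gcongr
        _ = (Mf τ * Real.exp (L * w.re)) * Real.exp (3 * R ^ 2) := by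
            rw [Real.exp_add]; ring
        _ ≤ (Real.exp (K * (6 * R)) * ‖fx w‖) * Real.exp (3 * R ^ 2) := by gcongr
        _ = E * ‖fx w‖ := by rw [hE, Real.exp_add]; ring
        _ ≤ _ := by
            refine mul_le_mul_of_nonneg_right ?_ (norm_nonneg _)
            nlinarith

theorem est {δ R : ℝ} (hδ : 0 < δ) (hδ1 : δ ≤ 1 / 8) (hR : 1 ≤ R) :
    ∃ C τ0 : ℝ, 1 ≤ C ∧ 2 ≤ τ0 ∧ ∀ τ : ℝ, τ0 ≤ τ → ∃ M : ℝ, 0 < M ∧
      (∀ ζ : ℂ, ‖ζ‖ ≤ R →
        ‖Ph τ ζ‖ ≤ C * M * Real.exp (Real.log τ / 2 * max |ζ.im| (1 / 2 + δ))) ∧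
      (∀ ζ : ℂ, ‖ζ‖ ≤ R → 1 / 2 + δ ≤ ζ.im → Ph τ ζ ≠ 0 ∧
        ‖logDeriv (Ph τ) ζ + ((Real.log τ / 2 : ℝ) : ℂ) * I‖ ≤ C ∧
        M * Real.exp (Real.log τ / 2 * ζ.im) ≤ C * ‖Ph τ ζ‖) := by
  obtain ⟨C, τ0, h1, h2, h3⟩ := estM hδ hδ1 hR
  exact ⟨C, τ0, h1, h2, fun τ hτ => ⟨Mf τ, Mf_pos τ, h3 τ hτ⟩⟩

/-- growth in the large disc -/
theorem growth : ∃ C τ0 : ℝ, 0 ≤ C ∧ 2 ≤ τ0 ∧ ∀ τ : ℝ, τ0 ≤ τ → ∀ v : ℂ, ‖v‖ ≤ 2 * τ →
    ‖fx v‖ ≤ Mf τ * Real.exp (C * Real.log τ * (1 + ‖v - τ * I‖)) := by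
  obtain ⟨K, hK1, hK⟩ := fx_ld_all (b := 1) (by norm_num)
  obtain ⟨Cs, hCs1, hCs⟩ := to_right (δ := 1) one_pos le_rfl
  have hls : 0 ≤ Real.log Cs := Real.log_nonneg hCs1
  refine ⟨1 / 2 + Real.log Cs + 3 * (2 + K), 3, by positivity, by norm_num, ?_⟩
  intro τ hτ v hv
  have hτ0 : 0 < τ := by linarith
  have hlog1 : 1 ≤ Real.log τ := by
    have h1 : Real.log 3 ≤ Real.log τ := Real.log_le_log (by norm_num) hτ
    have h2 : 1 ≤ Real.log 3 := by
      rw [Real.le_log_iff_exp_le (by norm_num)]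
      have := Real.exp_one_lt_d9
      linarith
    linarith
  -- logarithmic derivative
  have hld : ∀ w : ℂ, 1 ≤ w.re → ‖w‖ ≤ 2 * τ + 1 → fx w ≠ 0 ∧
      ‖logDeriv fx w - ((0 : ℝ) : ℂ)‖ ≤ (2 + K) * Real.log τ := by
    intro w h1 h2
    obtain ⟨a1, a2⟩ := hK w h1
    refine ⟨a1, ?_⟩
    rw [ofReal_zero, sub_zero]
    have h3 : ‖w + 1 / 2‖ ≤ τ ^ 3 := by
      have h4 := norm_add_le w (1 / 2 : ℂ)
      have h5 : ‖(1 / 2 : ℂ)‖ = 1 / 2 := by norm_num
      rw [h5] at h4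
      have h6 : 9 * τ ≤ τ ^ 3 := by nlinarith [mul_pos hτ0 hτ0]
      linarith
    have h4 : 1 ≤ ‖w + 1 / 2‖ := by
      refine le_trans ?_ (Complex.re_le_norm _)
      have : (w + 1 / 2).re = w.re + 1 / 2 := by simp
      rw [this]
      linarith
    have h5 : Real.log ‖w + 1 / 2‖ ≤ 3 * Real.log τ := by
      have := Real.log_le_log (by linarith) h3
      rwa [Real.log_pow, Nat.cast_ofNat] at this
    have h6 : 0 ≤ Real.log ‖w + 1 / 2‖ := Real.log_nonneg h4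
    calc ‖logDeriv fx w‖ = ‖(logDeriv fx w - ((Real.log ‖w + 1 / 2‖ / 2 : ℝ) : ℂ)) +
          ((Real.log ‖w + 1 / 2‖ / 2 : ℝ) : ℂ)‖ := by congr 1; ring
      _ ≤ K + Real.log ‖w + 1 / 2‖ / 2 := by
          refine (norm_add_le _ _).trans (add_le_add a2 ?_)
          rw [Complex.norm_real, Real.norm_of_nonneg (by linarith)]
      _ ≤ (2 + K) * Real.log τ := by nlinarith
  set a : ℂ := 1 + τ * I with ha
  have hare : a.re = 1 := by simp [ha]
  have han : ‖a‖ ≤ 2 * τ + 1 := by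
    refine (norm_add_le _ _).trans ?_
    rw [norm_one, norm_mul, Complex.norm_real, norm_I, mul_one, Real.norm_of_nonneg hτ0.le]
    linarith
  have hap : 0 < ‖fx a‖ := norm_pos_iff.2 (hld a hare.ge han).1
  obtain ⟨v', hv'⟩ : ∃ v' : ℂ, v' = ((max |v.re| (1 / 2 + 1 / 2) : ℝ) : ℂ) + v.im * I := ⟨_, rfl⟩
  have h3 := hCs v
  rw [← hv'] at h3
  have hre' : v'.re = max |v.re| (1 / 2 + 1 / 2) := by simp [hv']
  have him' : v'.im = v.im := by simp [hv']
  have hre1 : 1 ≤ v'.re := by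
    rw [hre']
    exact le_trans (by norm_num) (le_max_right _ _)
  have hn' : ‖v'‖ ≤ 2 * τ + 1 := by
    have e1 : ‖v'‖ ^ 2 = (max |v.re| (1 / 2 + 1 / 2)) ^ 2 + v.im ^ 2 := by
      rw [Complex.sq_norm, Complex.normSq_apply, hre', him']; ring
    have e2 : ‖v‖ ^ 2 = v.re ^ 2 + v.im ^ 2 := by
      rw [Complex.sq_norm, Complex.normSq_apply]; ring
    have e3 : (max |v.re| (1 / 2 + 1 / 2)) ^ 2 ≤ v.re ^ 2 + 1 := by
      rcases max_choice |v.re| (1 / 2 + 1 / 2 : ℝ) with h | h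
      · rw [h, sq_abs]; linarith
      · rw [h]; nlinarith [sq_nonneg v.re]
    have e4 : ‖v'‖ ^ 2 ≤ (2 * τ + 1) ^ 2 := by
      have : ‖v‖ ^ 2 ≤ (2 * τ) ^ 2 := by gcongr
      nlinarith
    exact (sq_le_sq₀ (norm_nonneg _) (by linarith)).1 e4
  have hdist : ‖v' - a‖ ≤ ‖v - τ * I‖ + 2 := by
    have e1 : (v' - a).re = v'.re - 1 := by rw [sub_re, hare]
    have e2 : (v' - a).im = v.im - τ := by rw [sub_im, him']; simp [ha]
    have e3 : (v' - a).re ^ 2 ≤ v.re ^ 2 := by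
      rw [← sq_abs v.re, e1, hre']
      rcases max_choice |v.re| (1 / 2 + 1 / 2 : ℝ) with h | h
      · rw [h]
        have : 1 ≤ |v.re| := by
          rw [hre', h] at hre1
          exact hre1
        nlinarith
      · rw [h]
        norm_num
        exact sq_nonneg _
    have e4 : ‖v' - a‖ ^ 2 ≤ ‖v - τ * I‖ ^ 2 := by
      have f1 : (v - τ * I).re = v.re := by simp
      have f2 : (v - τ * I).im = v.im - τ := by simp
      rw [Complex.sq_norm, Complex.sq_norm, Complex.normSq_apply, Complex.normSq_apply, f1, f2, e2]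
      nlinarith
    have := (sq_le_sq₀ (norm_nonneg _) (norm_nonneg _)).1 e4
    linarith
  have hseg := seg_log (a := a) (w := v') (P := 0) (K := (2 + K) * Real.log τ)
    (D := ‖v - τ * I‖ + 2) (by positivity) hdist (by
      intro s hs
      have hconv : Convex ℝ ({w : ℂ | 1 ≤ w.re} ∩ closedBall (0 : ℂ) (2 * τ + 1)) :=
        (convex_halfSpace_re_ge 1).inter (convex_closedBall _ _)
      have hmem : a + s * (v' - a) ∈ ({w : ℂ | 1 ≤ w.re} ∩ closedBall (0 : ℂ) (2 * τ + 1)) := by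
        have h1 : a ∈ ({w : ℂ | 1 ≤ w.re} ∩ closedBall (0 : ℂ) (2 * τ + 1)) :=
          ⟨hare.ge, by rwa [mem_closedBall_zero_iff]⟩
        have h2 : v' ∈ ({w : ℂ | 1 ≤ w.re} ∩ closedBall (0 : ℂ) (2 * τ + 1)) :=
          ⟨hre1, by rwa [mem_closedBall_zero_iff]⟩
        have h3 := hconv h1 h2 (a := 1 - s) (b := s) (by linarith [hs.2]) hs.1 (by ring)
        have e : (1 - s) • a + s • v' = a + s * (v' - a) := by
          rw [Complex.real_smul, Complex.real_smul]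
          push_cast
          ring
        rwa [e] at h3
      exact hld _ hmem.1 (by simpa using hmem.2))
  rw [zero_mul, sub_zero] at hseg
  have h7 := (abs_le.1 hseg).2
  have hvp : 0 < ‖fx v'‖ := norm_pos_iff.2 (hld v' hre1 hn').1
  have h8 : ‖fx v'‖ ≤ ‖fx a‖ * Real.exp ((2 + K) * Real.log τ * (‖v - τ * I‖ + 2)) := by
    calc ‖fx v'‖ = Real.exp (Real.log ‖fx v'‖) := (Real.exp_log hvp).symm
      _ ≤ Real.exp (Real.log ‖fx a‖ + (2 + K) * Real.log τ * (‖v - τ * I‖ + 2)) :=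
          Real.exp_le_exp.2 (by linarith)
      _ = _ := by rw [Real.exp_add, Real.exp_log hap]
  have hMf : Mf τ = ‖fx a‖ * Real.exp (-(Real.log τ / 2)) := rfl
  have hn0 := norm_nonneg (v - τ * I)
  calc ‖fx v‖ ≤ Cs * ‖fx v'‖ := h3
    _ ≤ Real.exp (Real.log Cs) * (‖fx a‖ *
        Real.exp ((2 + K) * Real.log τ * (‖v - τ * I‖ + 2))) := by
        rw [Real.exp_log (by linarith)]
        gcongr
    _ = (‖fx a‖ * Real.exp (-(Real.log τ / 2))) * Real.exp (Real.log τ / 2 + Real.log Cs +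
        (2 + K) * Real.log τ * (‖v - τ * I‖ + 2)) := by
        rw [Real.exp_add, Real.exp_add, Real.exp_neg]
        field_simp
    _ ≤ _ := by
        rw [hMf]
        refine mul_le_mul_of_nonneg_left (Real.exp_le_exp.2 ?_) (by positivity)
        have g1 : Real.log Cs ≤ Real.log Cs * Real.log τ * (1 + ‖v - τ * I‖) := by
          rw [mul_assoc]
          refine le_mul_of_one_le_right hls ?_
          nlinarith
        have g2 : Real.log τ / 2 ≤ 1 / 2 * Real.log τ * (1 + ‖v - τ * I‖) := by nlinarith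
        have g3 : (2 + K) * Real.log τ * (‖v - τ * I‖ + 2) ≤
            3 * (2 + K) * Real.log τ * (1 + ‖v - τ * I‖) := by
          have : 0 ≤ (2 + K) * Real.log τ := by positivity
          nlinarith
        linarith

end Pool.Agent.Helper82.JE
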