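import Pool.Agent.Helper75.JE.Mf
import Pool.Agent.Helper82.JE.Est

set_option autoImplicit false

open Complex

namespace Pool.Agent.Helper82.JE

open Pool.Agent.Helper75.Jen

theorem growth_thm : Pool.Agent.Helper75.JE.Growth := growth

lemma Mf_pos_thm (τ : ℝ) : 0 < Pool.Agent.Helper75.JE.Mf τ := Mf_pos τ

/-- the local estimates for the functions of helper75 -/
theorem est_Mf {δ R : ℝ} (hδ : 0 < δ) (hδ1 : δ ≤ 1 / 8) (hR : 1 ≤ R) :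
    ∃ C τ0 : ℝ, 1 ≤ C ∧ 2 ≤ τ0 ∧ ∀ τ : ℝ, τ0 ≤ τ →
      (∀ ζ : ℂ, ‖ζ‖ ≤ R → ‖Pool.Agent.Helper75.JE.Ph τ ζ‖ ≤ C * Pool.Agent.Helper75.JE.Mf τ *
        Real.exp (Real.log τ / 2 * max |ζ.im| (1 / 2 + δ))) ∧
      (∀ ζ : ℂ, ‖ζ‖ ≤ R → 1 / 2 + δ ≤ ζ.im → Pool.Agent.Helper75.JE.Ph τ ζ ≠ 0 ∧
        ‖logDeriv (Pool.Agent.Helper75.JE.Ph τ) ζ + ((Real.log τ / 2 : ℝ) : ℂ) * I‖ ≤ C ∧
        Pool.Agent.Helper75.JE.Mf τ * Real.exp (Real.log τ / 2 * ζ.im) ≤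
          C * ‖Pool.Agent.Helper75.JE.Ph τ ζ‖) := estM hδ hδ1 hR

end Pool.Agent.Helper82.JE
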