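import Pool.Agent.Helper75.Jen.Ver2
import Pool.Agent.Helper68.UL.Comp

set_option autoImplicit false
set_option maxHeartbeats 1000000

open Complex Filter Topology Metric Set LSeries
open scoped ComplexConjugate

namespace Pool.Agent.Helper82.JE

open Pool.Agent.Helper75.Jen Pool.Agent.Helper68.UL

lemma L_le' {η : ℝ} {f : ℕ → ℂ} (hf : LSeriesSummable f ((1 + η : ℝ) : ℂ)) {s : ℂ}
    (hs : 1 + η ≤ s.re) :
    ‖LSeries f s‖ ≤ ∑' n, ‖LSeries.term f ((1 + η : ℝ) : ℂ) n‖ := by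
  have hre : (((1 + η : ℝ) : ℂ)).re ≤ s.re := by rw [ofReal_re]; exact hs
  have hterm : ∀ n, ‖LSeries.term f s n‖ ≤ ‖LSeries.term f ((1 + η : ℝ) : ℂ) n‖ := fun n =>
    LSeries.norm_term_le_of_re_le_re f hre n
  have hsum : Summable (fun n => ‖LSeries.term f ((1 + η : ℝ) : ℂ) n‖) := hf.norm
  have hsum2 : Summable (fun n => ‖LSeries.term f s n‖) :=
    Summable.of_nonneg_of_le (fun n => norm_nonneg _) hterm hsum
  unfold LSeries
  exact (norm_tsum_le_tsum_norm hsum2).trans (hsum2.tsum_le_tsum hterm hsum)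

/-- the zeta function to the right of `1 + η` -/
theorem zeta_right' {η : ℝ} (hη : 0 < η) : ∃ C₀ : ℝ, 1 ≤ C₀ ∧ ∀ s : ℂ, 1 + η ≤ s.re →
    riemannZeta s ≠ 0 ∧ ‖logDeriv riemannZeta s‖ ≤ C₀ ∧ ‖riemannZeta s‖ ≤ C₀ ∧
      1 ≤ C₀ * ‖riemannZeta s‖ := by
  have h54 : (1 : ℝ) < (((1 + η : ℝ) : ℂ)).re := by rw [ofReal_re]; linarith
  set A := ∑' n, ‖LSeries.term (fun n => (ArithmeticFunction.vonMangoldt n : ℂ))
    ((1 + η : ℝ) : ℂ) n‖ with hA
  set B := ∑' n, ‖LSeries.term 1 ((1 + η : ℝ) : ℂ) n‖ with hB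
  set D := ∑' n, ‖LSeries.term (fun n => (ArithmeticFunction.moebius n : ℂ))
    ((1 + η : ℝ) : ℂ) n‖ with hD
  have hA0 : 0 ≤ A := tsum_nonneg fun n => norm_nonneg _
  have hB0 : 0 ≤ B := tsum_nonneg fun n => norm_nonneg _
  have hD0 : 0 ≤ D := tsum_nonneg fun n => norm_nonneg _
  refine ⟨1 + A + B + D, by linarith, ?_⟩
  intro s hs
  have hs1 : 1 < s.re := by linarith
  have hne := riemannZeta_ne_zero_of_one_lt_re hs1
  refine ⟨hne, ?_, ?_, ?_⟩
  · have h1 := ArithmeticFunction.LSeries_vonMangoldt_eq_deriv_riemannZeta_div hs1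
    have h2 := L_le' (f := fun n => (ArithmeticFunction.vonMangoldt n : ℂ))
      (ArithmeticFunction.LSeriesSummable_vonMangoldt h54) hs
    rw [h1] at h2
    rw [logDeriv_apply]
    rw [neg_div, norm_neg] at h2
    linarith
  · have h1 := LSeries_one_eq_riemannZeta hs1
    have h2 := L_le' (f := 1) (LSeriesSummable_one_iff.2 h54) hs
    rw [h1] at h2
    linarith
  · have h1 := ArithmeticFunction.LSeries_zeta_mul_Lseries_moebius hs1
    have h2 := L_le' (f := fun n => (ArithmeticFunction.moebius n : ℂ))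
      (ArithmeticFunction.LSeriesSummable_moebius_iff.2 h54) hs
    rw [ArithmeticFunction.LSeries_zeta_eq_riemannZeta hs1] at h1
    have h3 : ‖riemannZeta s‖ * ‖LSeries (fun n => (ArithmeticFunction.moebius n : ℂ)) s‖ = 1 := by
      rw [← norm_mul, h1, norm_one]
    have h4 := norm_nonneg (riemannZeta s)
    calc (1 : ℝ) = ‖riemannZeta s‖ * ‖LSeries (fun n => (ArithmeticFunction.moebius n : ℂ)) s‖ := h3.symm
      _ ≤ ‖riemannZeta s‖ * (1 + A + B + D) := by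
        refine mul_le_mul_of_nonneg_left ?_ h4
        linarith
      _ = _ := by ring

/-- the zeta function as a completed L-function -/
lemma zeta_CL {η K : ℝ} (hη : 0 < η) (hK : 1 ≤ K) (h : ∀ s : ℂ, 1 + η ≤ s.re →
    ‖riemannZeta s‖ ≤ K ∧ 1 ≤ K * ‖riemannZeta s‖) :
    CL (m := 1) (k := 2) (1 / 2 + η) (4 * K) (1 / 2) 1 (fun _ => 0) ![0, 1] 1
      (fun s => 4 * riemannZeta s) (fun s => fx (s - 1 / 2)) := by
  refine ⟨one_pos, by linarith, by linarith, le_rfl, fun j => by norm_num, ?_, ?_, ?_, ?_, ?_, ?_,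
    ?_, Or.inl rfl⟩
  · intro i
    fin_cases i <;> simp <;> linarith
  · exact fx_diff.comp (by fun_prop)
  · obtain ⟨C, hC0, hC⟩ := FF_growth
    refine ⟨2, C * 4, fun s => ?_⟩
    have h1 := hC ((s - 1 / 2) ^ 2)
    rw [FF_sq] at h1
    refine h1.trans (Real.exp_le_exp.2 ?_)
    rw [mul_assoc]
    refine mul_le_mul_of_nonneg_left ?_ hC0
    have h2 : ‖(s - 1 / 2) ^ 2‖ ≤ (‖s‖ + 1) ^ 2 := by
      rw [norm_pow]
      have h3 := norm_sub_le s (1 / 2 : ℂ)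
      have h4 : ‖(1 / 2 : ℂ)‖ = 1 / 2 := by norm_num
      rw [h4] at h3
      have h5 := norm_nonneg (s - 1 / 2)
      gcongr
      linarith
    have h6 : (1 : ℝ) ≤ 1 + ‖(s - 1 / 2) ^ 2‖ := by linarith [norm_nonneg ((s - 1 / 2) ^ 2)]
    calc (1 + ‖(s - 1 / 2) ^ 2‖) ^ (3 / 5 : ℝ) ≤ (1 + ‖(s - 1 / 2) ^ 2‖) ^ (1 : ℝ) :=
          Real.rpow_le_rpow_of_exponent_le h6 (by norm_num)
      _ = 1 + ‖(s - 1 / 2) ^ 2‖ := Real.rpow_one _
      _ ≤ 1 + (‖s‖ + 1) ^ 2 := by linarith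
      _ ≤ 4 * (1 + ‖s‖) ^ 2 := by nlinarith [norm_nonneg s]
  · intro s
    have e : (conj s - 1 / 2 : ℂ) = conj (s - 1 / 2) := by
      rw [map_sub, map_div₀, map_one, Complex.conj_ofNat]
    rw [e]
    exact fx_conj _
  · intro s hs
    have hs' : 1 + η < s.re := by linarith
    have h1 : -(1 / 2) < (s - 1 / 2).re := by
      have : (s - 1 / 2).re = s.re - 1 / 2 := by simp
      rw [this]; linarith
    have h2 : s - 1 / 2 ≠ 1 / 2 := by
      intro h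
      have h3 := congrArg Complex.re h
      have : (s - 1 / 2).re = s.re - 1 / 2 := by simp
      rw [this] at h3
      norm_num at h3
      linarith
    have h3 : (1 / 2 + (s - 1 / 2) : ℂ) = s := by ring
    rw [fx_eq h1 h2, Gx, h3, Fin.prod_univ_two]
    simp only [Matrix.cons_val_zero, Matrix.cons_val_one, Finset.univ_unique, Fin.default_eq_zero,
      Fin.isValue, Finset.prod_singleton, ofReal_one, one_cpow, ofReal_zero, add_zero, sub_zero,
      one_mul]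
    ring
  · intro s hs
    obtain ⟨h1, h2⟩ := h s (by linarith)
    rw [norm_mul]
    have h4 : ‖(4 : ℂ)‖ = 4 := by norm_num
    rw [h4]
    constructor
    · rw [inv_le_iff_one_le_mul₀ (by linarith)]
      nlinarith [norm_nonneg (riemannZeta s)]
    · linarith
  · intro s
    have e : ((2 : ℂ) * ((1 / 2 : ℝ) : ℂ) - s - 1 / 2) = -(s - 1 / 2) := by push_cast; ring
    rw [e, fx_even, one_mul]

theorem cls_fx {b : ℝ} (hb : 1 / 2 < b) (hb2 : b ≤ 2) : ∃ C : ℝ, Cls b C fx := by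
  obtain ⟨K, hK1, hK⟩ := zeta_right' (η := 3 / 4 * (b - 1 / 2)) (by linarith)
  have hcl := zeta_CL (η := 3 / 4 * (b - 1 / 2)) (K := K) (by linarith) hK1
    (fun s hs => ⟨(hK s hs).2.2.1, (hK s hs).2.2.2⟩)
  obtain ⟨C, hC1, hC⟩ := CL.cls 1 2 (β := 1 / 2 + 3 / 4 * (b - 1 / 2)) (K := 4 * K)
    (δ := (b - 1 / 2) / 2) (by linarith) (by linarith) (by linarith)
  have h := (hC _ _ _ _ _ _ _ hcl).1
  have e : (fun z : ℂ => fx (((1 / 2 : ℝ) : ℂ) + z - 1 / 2)) = fx := by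
    funext z
    congr 1
    push_cast
    ring
  rw [e] at h
  have e2 : 1 / 2 + 3 / 4 * (b - 1 / 2) + (b - 1 / 2) / 2 / 2 = b := by ring
  rw [e2] at h
  exact ⟨C, h⟩

/-- logarithmic derivative of `fx` to the right, at all heights -/
theorem fx_ld_all {b : ℝ} (hb : 1 / 2 < b) : ∃ K : ℝ, 1 ≤ K ∧ ∀ z : ℂ, b ≤ z.re → fx z ≠ 0 ∧
    ‖logDeriv fx z - ((Real.log ‖z + 1 / 2‖ / 2 : ℝ) : ℂ)‖ ≤ K := by
  obtain ⟨K, hK1, hK⟩ := zeta_right' (η := (b - 1 / 2) / 2) (by linarith)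
  obtain ⟨KR, hKR1, hKR⟩ := digR
  have hcl := zeta_CL (η := (b - 1 / 2) / 2) (K := K) (by linarith) hK1
    (fun s hs => ⟨(hK s hs).2.2.1, (hK s hs).2.2.2⟩)
  refine ⟨((2 : ℕ) : ℝ) / ((b - 1 / 2) / 2) + ((1 : ℕ) : ℝ) * KR +
    2 * (4 * K) ^ 2 / ((b - 1 / 2) / 2), ?_, fun z hz => ?_⟩
  · have h1 : 0 < b - 1 / 2 := by linarith
    have h2 : 0 ≤ ((2 : ℕ) : ℝ) / ((b - 1 / 2) / 2) := by positivity
    have h3 : 0 ≤ 2 * (4 * K) ^ 2 / ((b - 1 / 2) / 2) := by positivity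
    push_cast at h2 ⊢
    linarith
  · have h := hcl.ld_bound (δ := (b - 1 / 2) / 2) (KR := KR) (by linarith) hKR (z := z)
      (by linarith)
    have e : (fun z : ℂ => fx (((1 / 2 : ℝ) : ℂ) + z - 1 / 2)) = fx := by
      funext z
      congr 1
      push_cast
      ring
    rw [e] at h
    have e3 : (((1 / 2 : ℝ) : ℂ) + z - 1 / 2) = z := by push_cast; ring
    rw [e3] at h
    refine ⟨h.1, ?_⟩
    have e2 : V (1 / 2) 1 (fun _ : Fin 1 => (0 : ℝ)) z = Real.log ‖z + 1 / 2‖ / 2 := by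
      unfold V
      simp
    rw [e2] at h
    exact h.2

/-- convexity bound for `fx` -/
theorem fx_strip {δ : ℝ} (hδ : 0 < δ) (hδ1 : δ ≤ 1) : ∃ C : ℝ, 1 ≤ C ∧
    ∀ z : ℂ, |z.re| ≤ 1 / 2 + δ / 2 →
      ‖fx z‖ ≤ C * ‖fx (((1 / 2 + δ / 2 : ℝ) : ℂ) + z.im * I)‖ := by
  obtain ⟨C, h⟩ := cls_fx (b := 1 / 2 + δ / 2) (by linarith) (by linarith)
  refine ⟨Real.exp (C ^ 2 / 4 + (1 / 2 + δ / 2) ^ 2), Real.one_le_exp (by positivity), fun z hz => ?_⟩
  exact h.strip hz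

/-- the bound by the value to the right -/
theorem to_right {δ : ℝ} (hδ : 0 < δ) (hδ1 : δ ≤ 1) : ∃ C : ℝ, 1 ≤ C ∧
    ∀ w : ℂ, ‖fx w‖ ≤ C * ‖fx (((max |w.re| (1 / 2 + δ / 2) : ℝ) : ℂ) + w.im * I)‖ := by
  obtain ⟨Cs, hCs1, hCs⟩ := fx_strip hδ hδ1
  refine ⟨Cs, hCs1, fun w => ?_⟩
  rcases le_total |w.re| (1 / 2 + δ / 2) with h4 | h4
  · have h5 := hCs w h4
    rwa [max_eq_right h4]
  · have h5 : ‖fx (((max |w.re| (1 / 2 + δ / 2) : ℝ) : ℂ) + w.im * I)‖ = ‖fx w‖ := by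
      rw [max_eq_left h4]
      rcases le_total 0 w.re with h6 | h6
      · rw [abs_of_nonneg h6, Complex.re_add_im]
      · rw [abs_of_nonpos h6]
        have e : (((-w.re : ℝ) : ℂ) + w.im * I) = -(conj w) := by
          apply Complex.ext <;> simp
        rw [e, fx_even, fx_conj, Complex.norm_conj]
    rw [h5]
    exact le_mul_of_one_le_left (norm_nonneg _) hCs1

/-- logarithmic derivative of `fx` to the right, high up -/
theorem fx_ld {δ : ℝ} (hδ : 0 < δ) : ∃ K : ℝ, 1 ≤ K ∧ ∀ w : ℂ, 4 ≤ w.im → |w.re| ≤ w.im / 2 →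
    1 / 2 + δ / 2 ≤ w.re → fx w ≠ 0 ∧
      ‖logDeriv fx w - ((1 / 2 * Real.log w.im : ℝ) : ℂ)‖ ≤ K := by
  obtain ⟨C1, hC1, hG⟩ := logDeriv_Gx
  obtain ⟨C0, hC0, hZ⟩ := zeta_right' (η := δ / 2) (by positivity)
  refine ⟨C1 + C0, by linarith, ?_⟩
  intro w h1 h2 h3
  obtain ⟨g1, g2, g3⟩ := hG w h1 h2
  have hw : 1 / 2 < w.re := by linarith
  have hre : (1 / 2 + w : ℂ).re = 1 / 2 + w.re := by simp
  obtain ⟨z1, z2, -, -⟩ := hZ (1 / 2 + w) (by rw [hre]; linarith)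
  have hne : (1 / 2 + w : ℂ) ≠ 1 := by
    intro h
    have := congrArg Complex.re h
    rw [hre, one_re] at this
    linarith
  have hd : DifferentiableAt ℂ (fun z : ℂ => riemannZeta (1 / 2 + z)) w :=
    DifferentiableAt.comp (g := riemannZeta) (f := fun z : ℂ => 1 / 2 + z) w
      (differentiableAt_riemannZeta hne) (by fun_prop)
  have hev : fx =ᶠ[𝓝 w] fun z => Gx z * riemannZeta (1 / 2 + z) := by
    have hopen : IsOpen {z : ℂ | 1 / 2 < z.re} := isOpen_lt continuous_const Complex.continuous_re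
    filter_upwards [hopen.mem_nhds hw] with z hz
    have hz' : 1 / 2 < z.re := hz
    refine fx_eq (by linarith) ?_
    rintro rfl
    norm_num at hz'
  constructor
  · rw [hev.self_of_nhds]
    exact mul_ne_zero g1 z1
  · have e1 : logDeriv fx w = logDeriv Gx w + logDeriv riemannZeta (1 / 2 + w) := by
      have e1 : logDeriv fx w = logDeriv (fun z => Gx z * riemannZeta (1 / 2 + z)) w := by
        rw [logDeriv_apply, logDeriv_apply, hev.deriv_eq, hev.self_of_nhds]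
      rw [e1, logDeriv_mul w g1 z1 g2 hd]
      congr 1
      rw [logDeriv_apply, logDeriv_apply]
      congr 1
      exact deriv_comp_const_add (f := riemannZeta) (1 / 2 : ℂ) w
    rw [e1]
    calc ‖logDeriv Gx w + logDeriv riemannZeta (1 / 2 + w) - ((1 / 2 * Real.log w.im : ℝ) : ℂ)‖
        = ‖(logDeriv Gx w - ((1 / 2 * Real.log w.im : ℝ) : ℂ)) +
            logDeriv riemannZeta (1 / 2 + w)‖ := by congr 1; ring
      _ ≤ _ := (norm_add_le _ _).trans (add_le_add g3 z2)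

end Pool.Agent.Helper82.JE
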